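import Pool.Agent.TH176.Nag.Region

/-! Absorbing a multiple point into the left corner of a region. -/

set_option autoImplicit false

namespace Pool.Agent.TH102.DP

open Finset Pool.Agent.TH176.Nag

section coeff
variable {K : Type} [Field K]

theorem tv_zpow (e : ℤ) : tv K ^ e = HahnSeries.single e (1 : K) :=
  (RatFunc.single_zpow e).symm

theorem coeff_mul_tv_zpow (u : LaurentSeries K) (e n : ℤ) :
    (u * tv K ^ e).coeff n = u.coeff (n - e) := by
  rw [tv_zpow, mul_comm]
  have h2 := HahnSeries.coeff_single_mul (r := (1 : K)) (x := u) (a := n) (b := e)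
  simpa using h2

end coeff

/-- the points with one more point -/
theorem Emp_absorb {ι : Type} {w : ι → ℕ} (v : ℕ) {S S' : Set (ℤ × ℤ)} (hfin : S.Finite)
    (hS0 : ∀ m ∈ S, 0 ≤ m.2) (α : ℤ → ℤ) (hα : ∀ m ∈ S, α m.2 ≤ m.1)
    (hSS' : ∀ m ∈ S, (v : ℤ) ≤ m.2 + (m.1 - α m.2) → m ∈ S') (h : Emp w S') :
    Emp (fun o : Option ι => o.elim v w) S := by
  classical
  obtain ⟨K, _, _, x, y, hx, hy, hf⟩ := h
  obtain ⟨M, hM⟩ : ∃ M : ℕ, ∀ m ∈ S, ∀ m' ∈ S, m'.1 - m.1 < (M : ℤ) := by
    obtain ⟨T, hT⟩ := hfin.exists_finset_coe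
    refine ⟨2 * (T.sup fun m => m.1.natAbs) + 1, fun m hm m' hm' => ?_⟩
    rw [← hT] at hm hm'
    have h1 : m.1.natAbs ≤ T.sup fun m => m.1.natAbs :=
      Finset.le_sup (f := fun m : ℤ × ℤ => m.1.natAbs) (by exact_mod_cast hm)
    have h2 : m'.1.natAbs ≤ T.sup fun m => m.1.natAbs :=
      Finset.le_sup (f := fun m : ℤ × ℤ => m.1.natAbs) (by exact_mod_cast hm')
    push_cast
    omega
  have htv : tv K ≠ 0 := by simp [tv]
  refine ⟨LaurentSeries K, inferInstance, inferInstance,
    fun o => o.elim (tv K) fun i => cst (x i), fun o => o.elim (tv K ^ (M : ℤ)) fun i => cst (y i),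
    ?_, ?_, ?_⟩
  · rintro (_ | i)
    · exact htv
    · simpa using hx i
  · rintro (_ | i)
    · exact zpow_ne_zero _ htv
    · simpa using hy i
  intro f hfS hfL
  by_contra hne
  obtain ⟨n, hn1, hn2, hn3⟩ := exists_lead hne
  apply hn1
  apply hf
  · intro m0 hm0
    have hm0' : (f m0).coeff n ≠ 0 := by simpa using hm0
    have hm0S : m0 ∈ S := hfS (Finsupp.mem_support_iff.2 (hn3 m0 hm0').1)
    apply hSS' m0 hm0S
    by_contra hlt
    push Not at hlt
    apply hm0'
    obtain ⟨J, hJ⟩ := Int.eq_ofNat_of_zero_le (hS0 m0 hm0S)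
    obtain ⟨A, hA⟩ := Int.eq_ofNat_of_zero_le (sub_nonneg.2 (hα m0 hm0S))
    have hAJ : A + J < v := by omega
    have hP := PF_comp_aff (PF_desc2 (K := LaurentSeries K) hAJ)
      (-((α m0.2 : ℤ) : LaurentSeries K)) 1 0 0 0 1
    have h1 := hfL none _ hP
    -- the coefficient of the pairing
    have h2 := congrArg (fun u : LaurentSeries K => u.coeff (n + (m0.1 + M * m0.2))) h1
    simp only [Option.elim_none, HahnSeries.coeff_zero] at h2
    unfold pr Finsupp.sum at h2
    rw [HahnSeries.coeff_sum] at h2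
    let z : ℤ × ℤ → ℤ := fun m => (∏ t ∈ range A, (m.1 - α m0.2 - (t : ℤ))) *
      ∏ t ∈ range J, (m.2 - (t : ℤ))
    have key : ∀ m : ℤ × ℤ, (f m * ((∏ t ∈ range A, ((-((α m0.2 : ℤ) : LaurentSeries K) +
        1 * (m.1 : LaurentSeries K) + 0 * (m.2 : LaurentSeries K)) - (t : LaurentSeries K))) *
        ∏ t ∈ range J, ((0 + 0 * (m.1 : LaurentSeries K) + 1 * (m.2 : LaurentSeries K)) -
          (t : LaurentSeries K))) * (tv K ^ m.1 * (tv K ^ (M : ℤ)) ^ m.2)).coeff
        (n + (m0.1 + M * m0.2)) =
        ((z m : ℤ) : K) * (f m).coeff (n + (m0.1 + M * m0.2) - (m.1 + M * m.2)) := by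
      intro m
      have e1 : tv K ^ m.1 * (tv K ^ (M : ℤ)) ^ m.2 = tv K ^ (m.1 + M * m.2) := by
        rw [← zpow_mul, ← zpow_add₀ htv]
      have e2 : (∏ t ∈ range A, ((-((α m0.2 : ℤ) : LaurentSeries K) +
        1 * (m.1 : LaurentSeries K) + 0 * (m.2 : LaurentSeries K)) - (t : LaurentSeries K))) *
        ∏ t ∈ range J, ((0 + 0 * (m.1 : LaurentSeries K) + 1 * (m.2 : LaurentSeries K)) -
          (t : LaurentSeries K)) = cst ((z m : ℤ) : K) := by
        simp only [z, cst, map_intCast]
        push_cast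
        congr 1
        · refine prod_congr rfl fun t _ => ?_
          ring
        · refine prod_congr rfl fun t _ => ?_
          ring
      rw [e1, coeff_mul_tv_zpow, e2, coeff_mul_cst]
    rw [Finset.sum_eq_single m0] at h2
    · rw [key m0] at h2
      have e3 : n + (m0.1 + M * m0.2) - (m0.1 + M * m0.2) = n := by ring
      rw [e3] at h2
      refine (mul_eq_zero.1 h2).resolve_left ?_
      have : z m0 ≠ 0 := by
        simp only [z]
        refine mul_ne_zero (prod_ne_zero_iff.2 fun t ht => ?_) (prod_ne_zero_iff.2 fun t ht => ?_)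
        · have := mem_range.1 ht
          omega
        · have := mem_range.1 ht
          omega
      exact_mod_cast this
    · intro m hm hmne
      have hmS : m ∈ S := hfS hm
      refine (key m).trans ?_
      by_cases hz : z m = 0
      · rw [hz]; simp
      · have hz1 : ∀ t ∈ range A, m.1 - α m0.2 - (t : ℤ) ≠ 0 := fun t ht h0 => hz (by
          simp only [z]
          rw [prod_eq_zero ht h0, zero_mul])
        have hz2 : ∀ t ∈ range J, m.2 - (t : ℤ) ≠ 0 := fun t ht h0 => hz (by
          simp only [z]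
          rw [prod_eq_zero ht h0, mul_zero])
        rw [hn2 m _ ?_, mul_zero]
        have hm2 : m0.2 ≤ m.2 := by
          by_contra hcon
          push Not at hcon
          have h3 := hS0 m hmS
          exact hz2 m.2.toNat (mem_range.2 (by omega)) (by omega)
        rcases hm2.lt_or_eq with h4 | h4
        · have h5 := hM m hmS m0 hm0S
          have h6 : (M : ℤ) * m0.2 + M ≤ M * m.2 := by
            have : (M : ℤ) * (m0.2 + 1) ≤ M * m.2 :=
              mul_le_mul_of_nonneg_left (by omega) (Int.natCast_nonneg M)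
            linarith
          linarith
        · have h5 : m0.1 < m.1 := by
            have h6 := hα m hmS
            rw [← h4] at h6
            have h7 : m0.1 ≤ m.1 := by
              by_contra hcon
              push Not at hcon
              exact hz1 (m.1 - α m0.2).toNat (mem_range.2 (by omega)) (by omega)
            rcases h7.lt_or_eq with h8 | h8
            · exact h8
            · exact absurd (Prod.ext h8.symm h4.symm) hmne
          rw [← h4]
          linarith
    · intro hm
      exact absurd (Finsupp.mem_support_iff.2 (hn3 m0 hm0').1) hm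
  · intro i
    exact LM_coeff (hfL (some i)) n

end Pool.Agent.TH102.DP
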