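import Pool.Agent.TH102.DP.Tube
import Pool.Agent.TH603.EL.Key
import Pool.Agent.TH545.Nag.Nf

/-! Nef classes of square zero on blow-ups of del Pezzo surfaces. -/

set_option autoImplicit false

namespace Pool.Agent.TH102.DP

open Finset Pool.Agent.TH176.Nag
open Pool.Agent.H350R3 Pool.Agent.H350R3.GR

theorem Emp_of_quad {a s k n : ℕ} (h9 : a + s = 9) {h r : ℝ}
    (H : ∃ μ : ℝ, ∀ (w : Fin n → ℕ) (α V β : ℝ), h * (β - α) - r * V < ∑ i, (w i : ℝ) →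
      Emp w (Quad α V β μ (s - μ) k))
    (u : Fin a → ℕ) (v : Fin k → ℕ) (w : Fin n → ℕ) (d : ℕ)
    (hlt : h * (3 * d - ∑ i, (u i : ℝ)) - r * ∑ i, (v i : ℝ) < ∑ i, (w i : ℝ)) :
    Emp (Sum.elim u (Sum.elim v w)) {m : ℤ × ℤ | 0 ≤ m.1 ∧ 0 ≤ m.2 ∧ m.1 + m.2 ≤ (d : ℤ)} := by
  obtain ⟨μ0, hμ0⟩ := H
  have h9R : (a : ℝ) + s = 9 := by exact_mod_cast h9
  obtain ⟨μ, hμ⟩ : ∃ μ : ℝ, μ = μ0 + a := ⟨_, rfl⟩
  obtain ⟨κ, hκ1, hκ2⟩ : ∃ κ : ℤ, 3 < μ + κ ∧ μ + κ < 6 := by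
    refine ⟨⌊5 - μ⌋, ?_, ?_⟩
    · have := Int.lt_floor_add_one (5 - μ)
      linarith
    · have := Int.floor_le (5 - μ)
      linarith
  obtain ⟨τ, hτ⟩ : ∃ τ : ℝ, τ = (μ + κ) / 3 - 1 := ⟨_, rfl⟩
  apply Pool.Agent.TH603.EL.Emp_key (τ := τ) (by rw [hτ]; linarith) (by rw [hτ]; linarith)
  have e1 : 3 * (1 + τ) = μ + κ := by rw [hτ]; ring
  have e2 : 3 * (2 - τ) = 9 - μ - κ := by rw [hτ]; ring
  rw [e1, e2]
  have h1 : Emp (Sum.elim u (Sum.elim v w)) (Reg (-((d : ℝ) * (1 + τ))) (d * (2 - τ)) μ (9 - μ)) := by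
    apply Emp_quad u v (by linarith)
    have e3 : μ - a = μ0 := by rw [hμ]; ring
    have e4 : 9 - μ = s - μ0 := by rw [hμ]; linarith
    rw [e3, e4]
    apply hμ0
    have e5 : (d : ℝ) * (2 - τ) - (-((d : ℝ) * (1 + τ)) + ∑ i, (u i : ℝ)) =
        3 * d - ∑ i, (u i : ℝ) := by ring
    rw [e5]
    exact hlt
  refine h1.comap 1 (-κ) 0 1 0 0 (by norm_num) ?_
  rintro ⟨p, q⟩ ⟨k1, k2, k3⟩
  simp only at k1 k2 k3
  refine ⟨by simpa using k1, ?_, ?_⟩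
  · simp only
    push_cast
    linarith
  · simp only
    push_cast
    linarith

theorem nbEmp_of_Emp' {ι : Type} [Fintype ι] {d : ℕ} {w : ι → ℕ}
    (h : Emp w {m : ℤ × ℤ | 0 ≤ m.1 ∧ 0 ≤ m.2 ∧ m.1 + m.2 ≤ (d : ℤ)}) :
    ∃ x : ι → Fin (1 + 1) → ℂ, NB.Emp w x d := by
  obtain ⟨x, hx⟩ := Pool.Agent.TH545.Nag.nbEmp_of_Emp
    (Emp_pull (Fintype.equivFin ι).symm (Equiv.surjective _)
      (w' := fun j => w ((Fintype.equivFin ι).symm j)) (fun _ => rfl) h)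
  have h1 := hx.equiv (Fintype.equivFin ι).symm
  refine ⟨fun i => x (Fintype.equivFin ι i), ?_⟩
  simpa using h1

/-- The class `h (3 H - E_1 - ... - E_a) - r ∑ E' - ∑ E''` (`a + s = 9`, `k` curves `E'` and `n`
curves `E''`) of square zero is nef if `0 ≤ r ≤ h`, `k r ≤ s h` and `r ≥ 1` or `h` is an
integer. -/
theorem nf_tube {a s k n : ℕ} (h9 : a + s = 9) (hs : 1 ≤ s) {h r : ℝ}
    (hsq : s * h ^ 2 = n + k * r ^ 2) (hr : 0 ≤ r) (hrh : r ≤ h) (hkr : k * r ≤ s * h)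
    {b : ℕ} (hb : 1 ≤ b) (hbr : (b : ℝ) = r ∨ (b : ℝ) = h) :
    NB.Nf ℂ (Sum.elim (fun _ : Fin a => h) (Sum.elim (fun _ : Fin k => r)
      (fun _ : Fin n => (1 : ℝ)))) (3 * h) := by
  intro w d hd
  simp only [Fintype.sum_sum_type, Sum.elim_inl, Sum.elim_inr, one_mul] at hd
  rw [← mul_sum, ← mul_sum] at hd
  have e : w = Sum.elim (fun i => w (Sum.inl i)) (Sum.elim (fun i => w (Sum.inr (Sum.inl i)))
      fun i => w (Sum.inr (Sum.inr i))) := by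
    funext i
    rcases i with i | i | i <;> rfl
  apply nbEmp_of_Emp'
  rw [e]
  by_cases hk : 0 < k
  · refine Emp_of_quad h9 (h := h) (r := r) (Emp_quad_final hs hb hsq hr hrh hkr ?_) _ _ _ d ?_
    · rcases hbr with h1 | h1
      · exact Or.inl h1
      · exact Or.inr ⟨h1, hk⟩
    · linarith
  · have hk0 : k = 0 := by omega
    subst hk0
    have hbR : (1 : ℝ) ≤ b := by exact_mod_cast hb
    have h1h : 1 ≤ h := by
      rcases hbr with h1 | h1 <;> linarith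
    refine Emp_of_quad h9 (h := h) (r := 1) (Emp_quad_final (a := 1) hs le_rfl (by
      rw [hsq]; simp) zero_le_one h1h (by
        have : (0 : ℝ) ≤ s * h := mul_nonneg (Nat.cast_nonneg s) (by linarith)
        simpa using this) (Or.inl (by norm_num))) _ _ _ d ?_
    simp only [univ_eq_empty, sum_empty, mul_zero, zero_add, sub_zero] at hd ⊢
    linarith

/-- The same for lists. -/
theorem nf_list {s k n : ℕ} (hs : 1 ≤ s) (hs9 : s ≤ 9) {h r : ℝ}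
    (hsq : s * h ^ 2 = n + k * r ^ 2) (hr : 0 ≤ r) (hrh : r ≤ h) (hkr : k * r ≤ s * h)
    {b : ℕ} (hb : 1 ≤ b) (hbr : (b : ℝ) = r ∨ (b : ℝ) = h) :
    NB.Nf ℂ (List.replicate (9 - s) h ++ (List.replicate k r ++ List.replicate n 1)).get (3 * h) := by
  have h1 := nf_tube (a := 9 - s) (by omega) hs hsq hr hrh hkr hb hbr
  have e1 : NB.Nf ℂ (Sum.elim (List.replicate (9 - s) h).get
      (Sum.elim (List.replicate k r).get (List.replicate n (1 : ℝ)).get)) (3 * h) := by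
    refine nf_tr (Equiv.sumCongr (finCongr (List.length_replicate).symm)
      (Equiv.sumCongr (finCongr (List.length_replicate).symm)
        (finCongr (List.length_replicate).symm))) ?_ h1
    rintro (i | i | i) <;> simp
  refine nf_append (nf_tr (Equiv.sumCongr (Equiv.refl _) (appE _ _)) ?_ e1)
  rintro (i | i)
  · rfl
  · exact appE_get _ _ i

end Pool.Agent.TH102.DP
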