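import Pool.Agent.TH102.DP.Cut
import Pool.Agent.TH102.DP.Main
import Pool.Agent.TH181.Nag.Tri
import Pool.Agent.TH183.SC.Nf

/-! Conic arcs of nef classes of square zero. -/

set_option autoImplicit false

namespace Pool.Agent.TH102.DP

open Finset Pool.Agent.TH176.Nag Pool.Agent.TH181.Nag
open Pool.Agent.H350R3 Pool.Agent.H350R3.GR

/-- a triangle with the right real slope is exact for `m` points -/
theorem PS_tri {m : ℕ} {σ lam : ℝ} (hσ : 0 < σ) (hσm : σ ≤ m) (v : ℤ)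
    (hlam : lam + v = √(m * σ)) : PS (√(m : ℝ)) (Fin m) lam (σ - lam) := by
  have hm0 : (0 : ℝ) ≤ m := Nat.cast_nonneg m
  have hr0 : 0 ≤ √(m * σ) := Real.sqrt_nonneg _
  have hr2 : √(m * σ) ^ 2 = m * σ := Real.sq_sqrt (by positivity)
  obtain ⟨r, hr⟩ : ∃ r, r = √(m * σ) := ⟨_, rfl⟩
  rw [← hr] at hlam hr0 hr2
  have hrσ : σ ≤ r := by
    by_contra hcon
    push Not at hcon
    nlinarith
  refine PS.stepA 1 v isCoprime_one_left (by norm_num) ?_ ?_ ?_ ?_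
  · push_cast; linarith
  · push_cast; linarith
  · linarith
  have e1 : ((1 : ℤ) : ℝ) * (((1 : ℤ) : ℝ) * lam + (v : ℝ)) = r := by push_cast; linarith
  have e2 : ((v : ℝ) - ((1 : ℤ) : ℝ) * (σ - lam)) * (((1 : ℤ) : ℝ) * lam + (v : ℝ)) /
      (lam + (σ - lam)) = m - r := by
    push_cast
    rw [show (lam + (σ - lam) : ℝ) = σ by ring, div_eq_iff hσ.ne']
    have e3 : (v : ℝ) = r - lam := by linarith
    rw [e3]
    linear_combination hr2
  rw [e1, e2]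
  have h1 := PS.final (ι := Fin m) (μ := r) (ν := m - r) hr0 (by nlinarith) (by
    rw [Fintype.card_fin]; ring)
  rwa [Fintype.card_fin] at h1

/-- two groups are absorbed into the left side of a triangle -/
theorem Emp_two {ι : Type} {w : ι → ℕ} {a k : ℕ} (u : Fin a → ℕ) (v : Fin k → ℕ)
    {α β μ ν : ℝ} (hpos : 0 < μ + ν) {S' : Set (ℤ × ℤ)}
    (hS' : ∀ m ∈ Reg α β μ ν, α + μ * (m.2 : ℝ) + ((∑ i, max 0 ((u i : ℤ) - m.2) : ℤ) : ℝ) +
      ((∑ i, max 0 ((v i : ℤ) - m.2) : ℤ) : ℝ) ≤ (m.1 : ℝ) → m ∈ S')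
    (h : Emp w S') :
    Emp (Sum.elim u (Sum.elim v w)) (Reg α β μ ν) := by
  have hfin := Reg_finite (α := α) (β := β) hpos
  have h1 := Emp_absorbs h k v
    {m | m ∈ Reg α β μ ν ∧ ⌈α + μ * (m.2 : ℝ)⌉ + ∑ i, max 0 ((u i : ℤ) - m.2) ≤ m.1}
    (hfin.subset fun m hm => hm.1) (fun m hm => hm.1.1)
    (fun j => ⌈α + μ * (j : ℝ)⌉ + ∑ i, max 0 ((u i : ℤ) - j)) (fun m hm => hm.2) (by
      rintro ⟨p, q⟩ ⟨k0, k4⟩ k5
      simp only at k4 k5
      refine hS' _ k0 ?_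
      simp only
      have c1 := Int.le_ceil (α + μ * (q : ℝ))
      have c4 : ((⌈α + μ * (q : ℝ)⌉ : ℤ) : ℝ) + ((∑ i, max 0 ((u i : ℤ) - q) : ℤ) : ℝ) +
          ((∑ i, max 0 ((v i : ℤ) - q) : ℤ) : ℝ) ≤ p := by exact_mod_cast k5
      linarith)
  refine Emp_absorbs h1 a u (Reg α β μ ν) hfin (fun m hm => hm.1)
    (fun j => ⌈α + μ * (j : ℝ)⌉) (fun m hm => Int.ceil_le.2 hm.2.1) ?_
  intro m hm hle
  exact ⟨hm, hle⟩

theorem sum_max_ge {k : ℕ} {v : Fin k → ℕ} {x : ℝ} (hv : ∀ i, x ≤ v i) (y : ℤ) :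
    k * (x - y) ≤ ((∑ i, max 0 ((v i : ℤ) - y) : ℤ) : ℝ) := by
  have h1 := sum_max_le v y
  have h2 : ∑ _i : Fin k, x ≤ ∑ i, (v i : ℝ) := sum_le_sum fun i _ => hv i
  rw [sum_const, card_univ, Fintype.card_fin, nsmul_eq_mul] at h2
  nlinarith

/-- the strip and the triangle above it -/
theorem Emp_strip {s m : ℕ} {x y lam A B : ℝ} (hs : 1 ≤ s) (hm : 1 ≤ m) (hx : 0 < x) (hy : 0 < y)
    (hyx : s * y ≤ m * x) (v : ℤ) (hlam : lam + v = √(m * (s * y / x)))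
    (hlam0 : lam ≤ 0) (hlam1 : -s ≤ lam) (hB : B < s * y)
    (w₁ w₂ : Fin m → ℕ) (hw₁ : ∀ j, √(s * x * y / m) < w₁ j) (hw₂ : ∀ j, √(s * x * y / m) < w₂ j)
    (z : Fin s → ℕ) (hz : ∀ j, y < z j) {R : Set (ℤ × ℤ)} (hR : R.Finite)
    (hR0 : ∀ p ∈ R, 0 ≤ p.2)
    (hS1 : ∀ p ∈ R, (p.2 : ℝ) ≤ x → A + lam * p.2 ≤ p.1 ∧ (p.1 : ℝ) ≤ A + B + lam * p.2)
    (hS2 : ∀ p ∈ R, x < (p.2 : ℝ) → A - s * x + (lam + s) * p.2 ≤ p.1 ∧
      (p.1 : ℝ) ≤ A + B + lam * p.2) :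
    Emp (Sum.elim (Sum.elim w₁ w₂) z) R := by
  have hsR : (1 : ℝ) ≤ s := by exact_mod_cast hs
  have hmR : (1 : ℝ) ≤ m := by exact_mod_cast hm
  obtain ⟨σ, hσ⟩ : ∃ σ : ℝ, σ = s * y / x := ⟨_, rfl⟩
  have hσ0 : 0 < σ := by rw [hσ]; positivity
  have hσx : σ * x = s * y := by rw [hσ]; field_simp
  have hσm : σ ≤ m := by
    rw [hσ, div_le_iff₀ hx]; exact hyx
  rw [← hσ] at hlam
  have hPS := PS_tri hσ0 hσm v hlam
  obtain ⟨b, hb⟩ : ∃ b : ℝ, b = √(s * x * y / m) := ⟨_, rfl⟩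
  have hb2 : b = x * √σ / √m := by
    rw [hb, eq_div_iff (Real.sqrt_pos.2 (by linarith)).ne', ← Real.sqrt_mul (by positivity)]
    rw [show s * x * y / m * (m : ℝ) = x ^ 2 * σ by
      have : x ^ 2 * σ = x * (σ * x) := by ring
      rw [this, hσx]; field_simp]
    rw [Real.sqrt_mul (sq_nonneg _), Real.sqrt_sq hx.le]
  have hsm0 : 0 < √(m : ℝ) := Real.sqrt_pos.2 (by linarith)
  have hsm2 : √(m : ℝ) ^ 2 = m := Real.sq_sqrt (by linarith)
  have hsσ0 : 0 < √σ := Real.sqrt_pos.2 hσ0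
  have hsσ2 : √σ ^ 2 = σ := Real.sq_sqrt hσ0.le
  -- the two triangles
  have hT : ∀ (w : Fin m → ℕ), (∀ j, b < w j) → ∀ α : ℝ,
      Emp w (Reg α (α + s * y) lam (σ - lam)) := by
    intro w hw α
    have h1 := hPS w (x * √σ) (by positivity) (by
      have h2 : ∑ _j : Fin m, b < ∑ j, (w j : ℝ) :=
        sum_lt_sum_of_nonempty ⟨⟨0, by omega⟩, mem_univ _⟩ fun j _ => hw j
      rw [sum_const, card_univ, Fintype.card_fin, nsmul_eq_mul, hb2] at h2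
      refine lt_of_le_of_lt (le_of_eq ?_) h2
      rw [mul_div_assoc']
      rw [eq_div_iff hsm0.ne']
      linear_combination (x * √σ) * hsm2) α
    have e1 : x * √σ * √(lam + (σ - lam)) = s * y := by
      rw [show lam + (σ - lam) = σ by ring]
      linear_combination x * hsσ2 + hσx
    rwa [e1] at h1
  -- the rows up to `h0`
  obtain ⟨h0, hh0⟩ : ∃ h0 : ℤ, h0 = ⌊x⌋ := ⟨_, rfl⟩
  have hh1 : (h0 : ℝ) ≤ x := by rw [hh0]; exact Int.floor_le x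
  have hh2 : x < h0 + 1 := by rw [hh0]; exact Int.lt_floor_add_one x
  have hrow : ∀ p : ℤ × ℤ, (p.2 : ℝ) ≤ x ↔ p.2 ≤ h0 := by
    intro p
    rw [hh0, Int.le_floor]
  obtain ⟨S1, hS1d⟩ : ∃ S1 : Set (ℤ × ℤ), S1 = {p | p ∈ R ∧ p.2 ≤ h0 ∧
      (p.1 : ℝ) + (σ - lam) * p.2 ≤ A + s * y} := ⟨_, rfl⟩
  obtain ⟨S2, hS2d⟩ : ∃ S2 : Set (ℤ × ℤ), S2 = {p | p ∈ R ∧ p.2 ≤ h0 ∧
      A + s * y < (p.1 : ℝ) + (σ - lam) * p.2} := ⟨_, rfl⟩
  obtain ⟨S3, hS3d⟩ : ∃ S3 : Set (ℤ × ℤ), S3 = {p | p ∈ R ∧ h0 < p.2} := ⟨_, rfl⟩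
  have f1 : S1.Finite := hR.subset fun p hp => by rw [hS1d] at hp; exact hp.1
  have f2 : S2.Finite := hR.subset fun p hp => by rw [hS2d] at hp; exact hp.1
  have f3 : S3.Finite := hR.subset fun p hp => by rw [hS3d] at hp; exact hp.1
  have g1 : Emp w₁ S1 := by
    refine (hT w₁ (by rw [hb]; exact hw₁) A).mono ?_
    intro p hp
    rw [hS1d] at hp
    obtain ⟨k1, k2, k3⟩ := hp
    obtain ⟨k4, k5⟩ := hS1 p k1 ((hrow p).2 k2)
    exact ⟨hR0 p k1, k4, by linarith⟩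
  have g2 : Emp w₂ S2 := by
    refine (hT w₂ (by rw [hb]; exact hw₂) (-(A + B + lam * h0))).comap (-1) 0 0 (-1) 0 h0
      (by norm_num) ?_
    intro p hp
    rw [hS2d] at hp
    obtain ⟨k1, k2, k3⟩ := hp
    obtain ⟨k4, k5⟩ := hS1 p k1 ((hrow p).2 k2)
    have k6 : σ * h0 ≤ s * y := by rw [← hσx]; exact mul_le_mul_of_nonneg_left hh1 hσ0.le
    refine ⟨by simp only; omega, ?_, ?_⟩
    · simp only
      push_cast
      linarith
    · simp only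
      push_cast
      linarith
  have g3 : Emp z S3 := by
    have h1 := Pool.Agent.TH819.NagA.Emp_final z (A - s * x + (lam + s) * (h0 + 1))
      (A + B + lam * (h0 + 1)) (lam + s) (-lam) (by linarith) (by linarith) (by
        rw [Fintype.card_fin]; ring) (by
        have h2 : ∑ _j : Fin s, y ≤ ∑ j, (z j : ℝ) := sum_le_sum fun j _ => (hz j).le
        rw [sum_const, card_univ, Fintype.card_fin, nsmul_eq_mul] at h2
        have h3 : (s : ℝ) * x ≤ s * (h0 + 1) := mul_le_mul_of_nonneg_left hh2.le (by linarith)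
        linarith)
    refine h1.comap 1 0 0 1 0 (-(h0 + 1)) (by norm_num) ?_
    intro p hp
    rw [hS3d] at hp
    obtain ⟨k1, k2⟩ := hp
    obtain ⟨k4, k5⟩ := hS2 p k1 (by
      by_contra hcon
      push Not at hcon
      have := (hrow p).1 hcon
      omega)
    refine ⟨by simp only; omega, ?_, ?_⟩
    · simp only
      push_cast
      linarith
    · simp only
      push_cast
      linarith
  have g4 := Emp_cutR f1 f2 (σ - lam) (A + s * y) (by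
    intro p hp
    rw [hS1d] at hp
    exact hp.2.2) (by
    intro p hp
    rw [hS2d] at hp
    exact hp.2.2) g1 g2
  have g5 := Emp_cutZ (f1.union f2) f3 0 1 (by
    intro p hp p' hp'
    rw [hS3d] at hp'
    have : p.2 ≤ h0 := by
      rcases hp with hp | hp
      · rw [hS1d] at hp; exact hp.2.1
      · rw [hS2d] at hp; exact hp.2.1
    have := hp'.2
    omega) g4 g3
  refine g5.mono ?_
  intro p hp
  by_cases h1 : p.2 ≤ h0
  · left
    by_cases h2 : (p.1 : ℝ) + (σ - lam) * p.2 ≤ A + s * y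
    · left
      rw [hS1d]
      exact ⟨hp, h1, h2⟩
    · right
      rw [hS2d]
      exact ⟨hp, h1, by linarith⟩
  · right
    rw [hS3d]
    exact ⟨hp, by omega⟩

end Pool.Agent.TH102.DP
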