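import Pool.Agent.TH102.DP.Main
import Pool.Agent.Results.MP_309968_ag.BoundaryRays

/-! Very general points of the complex plane. -/

set_option autoImplicit false

namespace Pool.Agent.TH102.DP

open Finset
open Pool.Agent.H932R3 Pool.Agent.H350R3 Pool.Agent.H350R3.GR
open Pool.Agent.Results.MP_309968_ag.BoundaryRays (MultGE curveClasses curvCone cone_le
  degree_pos mult_pos)

theorem noForm_ext' {n r e : ℕ} {g : Fin r → Fin n} (hg : Function.Injective g) {m : Fin n → ℕ}
    {x : Fin r → Fin 2 → ℂ} (hx : NB.Emp (fun j => m (g j)) x e) :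
    NoForm (ptJ (Function.extend g x 0) m) e := by
  refine (noForm_of_emp hx).anti ?_
  unfold ptJ vIdeal
  refine le_iInf fun j => ?_
  have h2 := iInf_le (fun a => H932R2.cIdeal
    (fun _ : Fin 1 => (Function.extend g x 0 : Fin n → Fin 2 → ℂ) a 0)
    (Polynomial.C ((Function.extend g x 0 : Fin n → Fin 2 → ℂ) a 1)) (m a)) (g j)
  simp only [hg.extend_apply] at h2
  exact h2

/-- the inequalities for all nef classes hold at very general points -/
theorem very_general (N : ℕ) : ∃ f : ℕ → MvPolynomial (Fin N × Fin 2) ℂ, (∀ k, f k ≠ 0) ∧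
    ∀ p : Fin N → Fin 2 → ℂ,
      (∀ k, MvPolynomial.eval (fun q : Fin N × Fin 2 => p q.1 q.2) (f k) ≠ 0) →
      ∀ (ι : Type) [Fintype ι] (t : ι → ℝ) (c : ℝ), NB.Nf ℂ t c →
      ∀ g : ι → Fin N, Function.Injective g →
      ∀ (F : MvPolynomial (Fin 3) ℂ) (e : ℕ) (m : Fin N → ℕ), F.IsHomogeneous e → F ≠ 0 →
        (∀ i, MultGE (p i) F (m i)) → ∑ j, t j * (m (g j) : ℝ) ≤ c * e := by
  classical
  obtain ⟨f, hf, hf'⟩ := exists_conds_all (K := ℂ) N
  refine ⟨f, hf, fun p hp ι _ t c hN g hg F e m hF hF0 hm => ?_⟩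
  by_contra hcon
  push Not at hcon
  obtain ⟨x, hx⟩ := (hN.equiv (Fintype.equivFin ι)) (fun j => m (g ((Fintype.equivFin ι).symm j))) e
    (by
      refine lt_of_lt_of_eq hcon ?_
      exact ((Fintype.equivFin ι).symm.sum_comp (fun j => t j * (m (g j) : ℝ))).symm)
  refine hF0 (hf' p hp e m ⟨_, noForm_ext' (g := fun j => g ((Fintype.equivFin ι).symm j))
    (hg.comp (Equiv.injective _)) hx⟩ F hF ?_)
  unfold ptJ vIdeal
  rw [Ideal.mem_iInf]
  intro i
  exact mem_of_support (p := p i) (hm i)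

/-- nonnegativity on the closed cone of curves -/
theorem cone_of {N : ℕ} {p : Fin N → Fin 2 → ℂ} {ι : Type} [Fintype ι] {t : ι → ℝ} {c : ℝ}
    {g : ι → Fin N} (ht : ∀ j, 0 ≤ t j)
    (h : ∀ (F : MvPolynomial (Fin 3) ℂ) (e : ℕ) (m : Fin N → ℕ), F.IsHomogeneous e → F ≠ 0 →
        (∀ i, MultGE (p i) F (m i)) → ∑ j, t j * (m (g j) : ℝ) ≤ c * e) :
    ∀ x ∈ curvCone p, ∑ j, t j * x.2 (g j) ≤ c * x.1 := by
  intro x hx
  have h1 := cone_le (p := p) (l := fun j => t ((Fintype.equivFin ι).symm j))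
    (g := fun j => g ((Fintype.equivFin ι).symm j)) (c := c) (fun j => ht _)
    (fun F e m hF _ hF0 hm => by
      have h2 := h F e m hF hF0 hm
      rw [mul_comm c] at h2
      refine le_trans (le_of_eq ?_) h2
      exact (Fintype.equivFin ι).symm.sum_comp (fun j => t j * (m (g j) : ℝ))) x hx
  refine le_trans (le_of_eq ?_) h1
  exact ((Fintype.equivFin ι).symm.sum_comp (fun j => t j * x.2 (g j))).symm

end Pool.Agent.TH102.DP
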