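import Pool.Agent.TH102.DP.ArcNf
import Pool.Agent.TH102.DP.Gen

/-! Conic arcs of nef classes of square zero: the inequality. -/

set_option autoImplicit false

namespace Pool.Agent.TH102.DP

open Finset
open Pool.Agent.H350R3 Pool.Agent.H350R3.GR

/-- the positions of the points -/
def arcIdx (s k : ℕ) : Fin (9 - s) ⊕ (Fin s ⊕ ((Fin k ⊕ Fin k) ⊕ Fin s)) → ℕ :=
  Sum.elim (fun i => s + i) (Sum.elim (fun i => i)
    (Sum.elim (Sum.elim (fun j => 9 + s + j) (fun j => 9 + s + (k + j))) (fun i => 9 + i)))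

/-- the positions with the two groups of `s` points exchanged -/
def arcIdx' (s k : ℕ) : Fin (9 - s) ⊕ (Fin s ⊕ ((Fin k ⊕ Fin k) ⊕ Fin s)) → ℕ :=
  Sum.elim (fun i => s + i) (Sum.elim (fun i => 9 + i)
    (Sum.elim (Sum.elim (fun j => 9 + s + j) (fun j => 9 + s + (k + j))) (fun i => i)))

theorem arcIdx_inj {s k : ℕ} (hs9 : s ≤ 9) : Function.Injective (arcIdx s k) := by
  rintro (i | i | (i | i) | i) (j | j | (j | j) | j) hij <;>
    simp only [arcIdx, Sum.elim_inl, Sum.elim_inr] at hij <;>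
    first
    | (exfalso; have h1 := i.isLt; have h2 := j.isLt; omega)
    | (have : i = j := Fin.ext (by omega); rw [this])

theorem arcIdx'_inj {s k : ℕ} (hs9 : s ≤ 9) : Function.Injective (arcIdx' s k) := by
  rintro (i | i | (i | i) | i) (j | j | (j | j) | j) hij <;>
    simp only [arcIdx', Sum.elim_inl, Sum.elim_inr] at hij <;>
    first
    | (exfalso; have h1 := i.isLt; have h2 := j.isLt; omega)
    | (have : i = j := Fin.ext (by omega); rw [this])

theorem arcIdx_lt {s k : ℕ} (hs9 : s ≤ 9) (z) : arcIdx s k z < 9 + s + 2 * k := by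
  rcases z with (i | i | (i | i) | i) <;> simp only [arcIdx, Sum.elim_inl, Sum.elim_inr] <;>
    (have h1 := i.isLt; omega)

theorem arcIdx'_lt {s k : ℕ} (hs9 : s ≤ 9) (z) : arcIdx' s k z < 9 + s + 2 * k := by
  rcases z with (i | i | (i | i) | i) <;> simp only [arcIdx', Sum.elim_inl, Sum.elim_inr] <;>
    (have h1 := i.isLt; omega)

theorem arc_sums {s k : ℕ} (hs9 : s ≤ 9) (f : ℕ → ℝ) :
    (∑ i ∈ range 9, f i = ∑ i : Fin s, f i + ∑ i : Fin (9 - s), f (s + i)) ∧
    (∑ i ∈ range 9, f (s + i) = ∑ i : Fin (9 - s), f (s + i) + ∑ i : Fin s, f (9 + i)) ∧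
    (∑ j ∈ range (2 * k), f (9 + s + j) = ∑ j : Fin k, f (9 + s + j) +
      ∑ j : Fin k, f (9 + s + (k + j))) := by
  refine ⟨?_, ?_, ?_⟩
  · rw [Fin.sum_univ_eq_sum_range (fun i => f i) s,
      Fin.sum_univ_eq_sum_range (fun i => f (s + i)) (9 - s), ← sum_range_add]
    congr 2
    omega
  · rw [Fin.sum_univ_eq_sum_range (fun i => f (s + i)) (9 - s),
      Fin.sum_univ_eq_sum_range (fun i => f (9 + i)) s]
    have h1 := sum_range_add (fun i => f (s + i)) (9 - s) s
    have e : 9 - s + s = 9 := by omega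
    rw [e] at h1
    rw [h1]
    congr 1
    refine sum_congr rfl fun i _ => ?_
    congr 1
    omega
  · rw [Fin.sum_univ_eq_sum_range (fun j => f (9 + s + j)) k,
      Fin.sum_univ_eq_sum_range (fun j => f (9 + s + (k + j))) k, two_mul, sum_range_add]

/-- the inequalities for all `x`, `y` imply the inequality for the product -/
theorem prod_ineq {s k : ℕ} (hs : 1 ≤ s) (hk : 1 ≤ k) {A B Q : ℝ} (hQ : 0 ≤ Q)
    (h1 : ∀ x y : ℝ, 0 < x → 0 < y → s * y ≤ k * x → √(s * x * y / k) * Q ≤ x * A + y * B)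
    (h2 : ∀ x y : ℝ, 0 < x → 0 < y → s * x ≤ k * y → √(s * x * y / k) * Q ≤ x * A + y * B) :
    0 ≤ A ∧ 0 ≤ B ∧ ((s * A ≤ k * B ∨ s * B ≤ k * A) → s * Q ^ 2 ≤ 4 * k * A * B) := by
  have hsR : (1 : ℝ) ≤ s := by exact_mod_cast hs
  have hkR : (1 : ℝ) ≤ k := by exact_mod_cast hk
  have hA : 0 ≤ A := by
    by_contra hcon
    push Not at hcon
    -- `x = 1`, `y` small
    obtain ⟨y, hy⟩ : ∃ y : ℝ, y = min ((k : ℝ) / s) (-A / (2 * (|B| + 1))) := ⟨_, rfl⟩
    have hy0 : 0 < y := by
      rw [hy]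
      refine lt_min (by positivity) ?_
      apply div_pos (by linarith) (by positivity)
    have hy1 : s * y ≤ k * 1 := by
      have : y ≤ k / s := by rw [hy]; exact min_le_left _ _
      rw [le_div_iff₀ (by linarith)] at this
      linarith
    have hy2 : y * (2 * (|B| + 1)) ≤ -A := by
      have : y ≤ -A / (2 * (|B| + 1)) := by rw [hy]; exact min_le_right _ _
      rwa [le_div_iff₀ (by positivity)] at this
    have h3 := h1 1 y one_pos hy0 hy1
    have h4 : 0 ≤ √(s * 1 * y / k) * Q := by positivity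
    have h5 : y * B ≤ y * |B| := mul_le_mul_of_nonneg_left (le_abs_self B) hy0.le
    nlinarith
  have hB : 0 ≤ B := by
    by_contra hcon
    push Not at hcon
    obtain ⟨x, hx⟩ : ∃ x : ℝ, x = min ((k : ℝ) / s) (-B / (2 * (|A| + 1))) := ⟨_, rfl⟩
    have hx0 : 0 < x := by
      rw [hx]
      refine lt_min (by positivity) ?_
      apply div_pos (by linarith) (by positivity)
    have hx1 : s * x ≤ k * 1 := by
      have : x ≤ k / s := by rw [hx]; exact min_le_left _ _
      rw [le_div_iff₀ (by linarith)] at this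
      linarith
    have hx2 : x * (2 * (|A| + 1)) ≤ -B := by
      have : x ≤ -B / (2 * (|A| + 1)) := by rw [hx]; exact min_le_right _ _
      rwa [le_div_iff₀ (by positivity)] at this
    have h3 := h2 x 1 hx0 one_pos hx1
    have h4 : 0 ≤ √(s * x * 1 / k) * Q := by positivity
    have h5 : x * A ≤ x * |A| := mul_le_mul_of_nonneg_left (le_abs_self A) hx0.le
    nlinarith
  refine ⟨hA, hB, ?_⟩
  -- the case of positive numbers
  have main : ∀ x y : ℝ, 0 < x → 0 < y → √(s * x * y / k) * Q ≤ x * A + y * B →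
      s * x * y * Q ^ 2 ≤ k * (x * A + y * B) ^ 2 := by
    intro x y hx hy h
    have h3 : (√(s * x * y / k) * Q) ^ 2 ≤ (x * A + y * B) ^ 2 :=
      pow_le_pow_left₀ (by positivity) h 2
    rw [mul_pow, Real.sq_sqrt (by positivity)] at h3
    have h4 : (k : ℝ) * (s * x * y / k * Q ^ 2) ≤ k * (x * A + y * B) ^ 2 :=
      mul_le_mul_of_nonneg_left h3 (by linarith)
    have h5 : (k : ℝ) * (s * x * y / k * Q ^ 2) = s * x * y * Q ^ 2 := by field_simp
    linarith
  rintro (h | h)
  · rcases hA.lt_or_eq with hA0 | hA0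
    · have hB0 : 0 < B := by
        by_contra hcon
        have : B = 0 := le_antisymm (not_lt.1 hcon) hB
        rw [this] at h
        nlinarith
      have h3 := main B A hB0 hA0 (h1 B A hB0 hA0 h)
      have h4 : s * Q ^ 2 * (B * A) ≤ 4 * k * A * B * (B * A) := by nlinarith
      exact le_of_mul_le_mul_right h4 (by positivity)
    · -- `A = 0`
      rw [← hA0]
      have hQ0 : Q = 0 := by
        by_contra hQ0
        have hQp : 0 < Q := lt_of_le_of_ne hQ (Ne.symm hQ0)
        obtain ⟨x, hx⟩ : ∃ x : ℝ, x = s / k + k * B ^ 2 / (s * Q ^ 2) + 1 := ⟨_, rfl⟩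
        have hx0 : 0 < x := by rw [hx]; positivity
        have hx1 : s * 1 ≤ k * x := by
          have e1 : (k : ℝ) * (s / k) = s := by field_simp
          have e2 : 0 ≤ (k : ℝ) * (k * B ^ 2 / (s * Q ^ 2) + 1) := by positivity
          rw [hx]
          nlinarith
        have h3 := main x 1 hx0 one_pos (h1 x 1 hx0 one_pos hx1)
        rw [← hA0] at h3
        have e3 : (k * B ^ 2 / (s * Q ^ 2)) * (s * Q ^ 2) = k * B ^ 2 := by
          field_simp
        have e4 : 0 < (s / k + 1) * (s * Q ^ 2) := by positivity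
        have e5 : x * (s * Q ^ 2) = k * B ^ 2 + (s / k + 1) * (s * Q ^ 2) := by
          rw [hx]; linear_combination e3
        nlinarith
      rw [hQ0]
      simp
  · rcases hB.lt_or_eq with hB0 | hB0
    · have hA0 : 0 < A := by
        by_contra hcon
        have : A = 0 := le_antisymm (not_lt.1 hcon) hA
        rw [this] at h
        nlinarith
      have h3 := main B A hB0 hA0 (h2 B A hB0 hA0 h)
      have h4 : s * Q ^ 2 * (B * A) ≤ 4 * k * A * B * (B * A) := by nlinarith
      exact le_of_mul_le_mul_right h4 (by positivity)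
    · -- `B = 0`
      rw [← hB0]
      have hQ0 : Q = 0 := by
        by_contra hQ0
        have hQp : 0 < Q := lt_of_le_of_ne hQ (Ne.symm hQ0)
        obtain ⟨x, hx⟩ : ∃ x : ℝ, x = s / k + k * A ^ 2 / (s * Q ^ 2) + 1 := ⟨_, rfl⟩
        have hx0 : 0 < x := by rw [hx]; positivity
        have hx1 : s * 1 ≤ k * x := by
          have e1 : (k : ℝ) * (s / k) = s := by field_simp
          have e2 : 0 ≤ (k : ℝ) * (k * A ^ 2 / (s * Q ^ 2) + 1) := by positivity
          rw [hx]
          nlinarith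
        have h3 := main 1 x one_pos hx0 (h2 1 x one_pos hx0 hx1)
        rw [← hB0] at h3
        have e3 : (k * A ^ 2 / (s * Q ^ 2)) * (s * Q ^ 2) = k * A ^ 2 := by
          field_simp
        have e4 : 0 < (s / k + 1) * (s * Q ^ 2) := by positivity
        have e5 : x * (s * Q ^ 2) = k * A ^ 2 + (s / k + 1) * (s * Q ^ 2) := by
          rw [hx]; linear_combination e3
        nlinarith
      rw [hQ0]
      simp

end Pool.Agent.TH102.DP
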