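import Pool.Agent.TH102.DP.Arc

/-! Conic arcs of nef classes of square zero: the classes. -/

set_option autoImplicit false

namespace Pool.Agent.TH102.DP

open Finset Pool.Agent.TH176.Nag Pool.Agent.TH181.Nag
open Pool.Agent.H350R3 Pool.Agent.H350R3.GR

theorem Emp_arc {a s m : ℕ} (h9 : a + s = 9) (hs : 1 ≤ s) (hm : 1 ≤ m) {x y : ℝ}
    (hx : 0 < x) (hy : 0 < y) (hyx : s * y ≤ m * x)
    (u : Fin a → ℕ) (u' : Fin s → ℕ) (w₁ w₂ : Fin m → ℕ) (z : Fin s → ℕ) (d : ℕ)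
    (hd : (d : ℝ) < 3 * (x + y)) (hu : ∀ i, x + y ≤ u i) (hu' : ∀ i, x ≤ u' i)
    (hw₁ : ∀ j, √(s * x * y / m) < w₁ j) (hw₂ : ∀ j, √(s * x * y / m) < w₂ j)
    (hz : ∀ i, y < z i) :
    Emp (Sum.elim u (Sum.elim u' (Sum.elim (Sum.elim w₁ w₂) z)))
      {p : ℤ × ℤ | 0 ≤ p.1 ∧ 0 ≤ p.2 ∧ p.1 + p.2 ≤ (d : ℤ)} := by
  have h9R : (a : ℝ) + s = 9 := by exact_mod_cast h9
  have hsR : (1 : ℝ) ≤ s := by exact_mod_cast hs
  -- the slope
  obtain ⟨r, hr⟩ : ∃ r : ℝ, r = √(m * (s * y / x)) := ⟨_, rfl⟩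
  obtain ⟨v, hv⟩ : ∃ v : ℤ, v = ⌈r⌉ := ⟨_, rfl⟩
  have hv1 : r ≤ v := by rw [hv]; exact Int.le_ceil r
  have hv2 : (v : ℝ) < r + 1 := by rw [hv]; exact Int.ceil_lt_add_one r
  obtain ⟨lam, hlam⟩ : ∃ lam : ℝ, lam = r - v := ⟨_, rfl⟩
  obtain ⟨μ, hμ⟩ : ∃ μ : ℝ, μ = lam + 9 := ⟨_, rfl⟩
  obtain ⟨κ, hκ1, hκ2⟩ : ∃ κ : ℤ, 3 < μ + κ ∧ μ + κ < 6 := by
    refine ⟨⌊5 - μ⌋, ?_, ?_⟩
    · have := Int.lt_floor_add_one (5 - μ)
      linarith
    · have := Int.floor_le (5 - μ)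
      linarith
  obtain ⟨τ, hτ⟩ : ∃ τ : ℝ, τ = (μ + κ) / 3 - 1 := ⟨_, rfl⟩
  apply Pool.Agent.TH603.EL.Emp_key (τ := τ) (by rw [hτ]; linarith) (by rw [hτ]; linarith)
  have e1 : 3 * (1 + τ) = μ + κ := by rw [hτ]; ring
  have e2 : 3 * (2 - τ) = 9 - μ - κ := by rw [hτ]; ring
  rw [e1, e2]
  have h1 : Emp (Sum.elim u (Sum.elim u' (Sum.elim (Sum.elim w₁ w₂) z)))
      (Reg (-((d : ℝ) * (1 + τ))) (d * (2 - τ)) μ (9 - μ)) := by
    obtain ⟨A, hA⟩ : ∃ A : ℝ, A = -((d : ℝ) * (1 + τ)) + a * (x + y) + s * x := ⟨_, rfl⟩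
    obtain ⟨B, hB⟩ : ∃ B : ℝ, B = d * (2 - τ) - A := ⟨_, rfl⟩
    have hBlt : B < s * y := by
      have : B = 3 * d - a * (x + y) - s * x := by rw [hB, hA]; ring
      rw [this]
      have e3 : (a : ℝ) = 9 - s := by linarith
      rw [e3]
      nlinarith
    refine Emp_two u u' (by linarith) (S' := {p | p ∈ Reg (-((d : ℝ) * (1 + τ)))
      (d * (2 - τ)) μ (9 - μ) ∧ -((d : ℝ) * (1 + τ)) + μ * (p.2 : ℝ) +
      ((∑ i, max 0 ((u i : ℤ) - p.2) : ℤ) : ℝ) +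
      ((∑ i, max 0 ((u' i : ℤ) - p.2) : ℤ) : ℝ) ≤ (p.1 : ℝ)}) (fun p hp hp' => ⟨hp, hp'⟩) ?_
    refine Emp_strip (s := s) (m := m) (x := x) (y := y) (lam := lam) (A := A) (B := B) hs hm hx hy
      hyx v (by rw [← hr, hlam]; ring) (by rw [hlam]; linarith) (by rw [hlam]; linarith) hBlt
      w₁ w₂ hw₁ hw₂ z hz ((Reg_finite (by linarith)).subset fun p hp => hp.1)
      (fun p hp => hp.1.1) ?_ ?_
    · rintro ⟨p, q⟩ ⟨⟨k1, k2, k3⟩, k4⟩ hq
      simp only at k1 k2 k3 k4 hq ⊢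
      have c1 := sum_max_ge hu q
      have c2 := sum_max_ge hu' q
      constructor
      · have e3 : A + lam * q = -((d : ℝ) * (1 + τ)) + μ * q + a * (x + y - q) + s * (x - q) := by
          rw [hA, hμ]
          linear_combination (q : ℝ) * h9R
        linarith
      · rw [hB]
        have e4 : 9 - μ = -lam := by rw [hμ]; ring
        rw [e4] at k3
        linarith
    · rintro ⟨p, q⟩ ⟨⟨k1, k2, k3⟩, k4⟩ hq
      simp only at k1 k2 k3 k4 hq ⊢
      have c1 := sum_max_ge hu q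
      have c2 := sum_max_nonneg u' q
      constructor
      · have e3 : A - s * x + (lam + s) * q = -((d : ℝ) * (1 + τ)) + μ * q + a * (x + y - q) := by
          rw [hA, hμ]
          linear_combination (q : ℝ) * h9R
        linarith
      · rw [hB]
        have e4 : 9 - μ = -lam := by rw [hμ]; ring
        rw [e4] at k3
        linarith
  refine h1.comap 1 (-κ) 0 1 0 0 (by norm_num) ?_
  rintro ⟨p, q⟩ ⟨k1, k2, k3⟩
  simp only at k1 k2 k3
  refine ⟨by simpa using k1, ?_, ?_⟩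
  · simp only
    push_cast
    linarith
  · simp only
    push_cast
    linarith

/-- from one ray to all classes, any index set -/
theorem nf_of_ray' {ι : Type} [Fintype ι] {t : ι → ℝ} {c : ℝ} (hc : 0 < c)
    (hsq : ∑ i, t i ^ 2 ≤ c ^ 2)
    (hray : ∀ y : ℕ, 1 ≤ y → ∃ (w : ι → ℕ) (d : ℕ),
      (∀ i, (w i : ℝ) ≤ y * t i + 1) ∧ c * y ≤ d + 1 ∧
        Emp w {p : ℤ × ℤ | 0 ≤ p.1 ∧ 0 ≤ p.2 ∧ p.1 + p.2 ≤ (d : ℤ)}) :
    NB.Nf ℂ t c := by
  have h1 : NB.Nf ℂ (fun j => t ((Fintype.equivFin ι).symm j)) c := by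
    apply Pool.Agent.TH183.SC.nf_of_ray hc
    · rw [(Fintype.equivFin ι).symm.sum_comp (fun i => t i ^ 2)]
      exact hsq
    · intro y hy
      obtain ⟨w, d, hw, hd, hE⟩ := hray y hy
      obtain ⟨x, hx⟩ := nbEmp_of_Emp' hE
      exact ⟨fun j => w ((Fintype.equivFin ι).symm j), d,
        fun j => x ((Fintype.equivFin ι).symm j), fun j => hw _, hd,
        hx.equiv (Fintype.equivFin ι)⟩
  exact nf_tr (Fintype.equivFin ι).symm (fun i => rfl) h1

theorem nf_arc {a s m : ℕ} (h9 : a + s = 9) (hs : 1 ≤ s) (hm : 1 ≤ m) {x y : ℝ}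
    (hx : 0 < x) (hy : 0 < y) (hyx : s * y ≤ m * x) :
    NB.Nf ℂ (Sum.elim (fun _ : Fin a => x + y) (Sum.elim (fun _ : Fin s => x)
      (Sum.elim (Sum.elim (fun _ : Fin m => √(s * x * y / m)) (fun _ : Fin m => √(s * x * y / m)))
        (fun _ : Fin s => y)))) (3 * (x + y)) := by
  have h9R : (a : ℝ) + s = 9 := by exact_mod_cast h9
  have hsR : (1 : ℝ) ≤ s := by exact_mod_cast hs
  have hmR : (1 : ℝ) ≤ m := by exact_mod_cast hm
  have hb0 : (0 : ℝ) ≤ s * x * y / m := by positivity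
  apply nf_of_ray' (by linarith)
  · simp only [Fintype.sum_sum_type, Sum.elim_inl, Sum.elim_inr, sum_const, card_univ,
      Fintype.card_fin, nsmul_eq_mul]
    rw [Real.sq_sqrt hb0]
    have e1 : (m : ℝ) * (s * x * y / m) = s * x * y := by field_simp
    rw [e1]
    have e2 : (a : ℝ) = 9 - s := by linarith
    rw [e2]
    apply le_of_eq
    ring
  · intro N hN
    have hNR : (1 : ℝ) ≤ N := by exact_mod_cast hN
    have hx' : 0 < N * x := by positivity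
    have hy' : 0 < N * y := by positivity
    have hb' : √(s * (N * x) * (N * y) / m) = N * √(s * x * y / m) := by
      rw [show (s : ℝ) * (N * x) * (N * y) / m = N ^ 2 * (s * x * y / m) by ring,
        Real.sqrt_mul (sq_nonneg _), Real.sqrt_sq (by linarith)]
    have hfl : ∀ t : ℝ, 0 ≤ t → (((⌊t⌋₊ + 1 : ℕ) : ℝ)) ≤ t + 1 ∧ t < ((⌊t⌋₊ + 1 : ℕ) : ℝ) := by
      intro t ht
      push_cast
      exact ⟨by linarith [Nat.floor_le ht], Nat.lt_floor_add_one t⟩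
    obtain ⟨d, hd1, hd2⟩ : ∃ d : ℕ, (d : ℝ) < 3 * (N * x + N * y) ∧
        3 * (x + y) * N ≤ d + 1 := by
      have hc0 : 0 < 3 * (N * x + N * y) := by positivity
      have h1 : 0 < ⌈3 * (N * x + N * y)⌉₊ := Nat.ceil_pos.2 hc0
      refine ⟨⌈3 * (N * x + N * y)⌉₊ - 1, ?_, ?_⟩
      · have h2 := Nat.ceil_lt_add_one hc0.le
        rw [Nat.cast_sub h1]
        push_cast
        linarith
      · have h2 := Nat.le_ceil (3 * (N * x + N * y))
        rw [Nat.cast_sub h1]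
        push_cast
        nlinarith
    refine ⟨Sum.elim (fun _ : Fin a => ⌊N * (x + y)⌋₊ + 1) (Sum.elim (fun _ : Fin s => ⌊N * x⌋₊ + 1)
      (Sum.elim (Sum.elim (fun _ : Fin m => ⌊N * √(s * x * y / m)⌋₊ + 1)
        (fun _ : Fin m => ⌊N * √(s * x * y / m)⌋₊ + 1)) (fun _ : Fin s => ⌊N * y⌋₊ + 1))), d,
        ?_, hd2, ?_⟩
    · rintro (i | i | (i | i) | i)
      · exact (hfl _ (by positivity)).1
      · exact (hfl _ (by positivity)).1
      · exact (hfl _ (by positivity)).1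
      · exact (hfl _ (by positivity)).1
      · exact (hfl _ (by positivity)).1
    · refine Emp_arc (x := N * x) (y := N * y) h9 hs hm hx' hy' ?_ _ _ _ _ _ d hd1 ?_ ?_ ?_ ?_ ?_
      · nlinarith
      · intro i
        have := (hfl (N * (x + y)) (by positivity)).2
        linarith
      · intro i
        exact (hfl (N * x) (by positivity)).2.le
      · intro i
        rw [hb']
        exact (hfl (N * √(s * x * y / m)) (by positivity)).2
      · intro i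
        rw [hb']
        exact (hfl (N * √(s * x * y / m)) (by positivity)).2
      · intro i
        exact (hfl (N * y) (by positivity)).2

end Pool.Agent.TH102.DP
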