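import Pool.Agent.TH102.DP.ArcFin

/-! Conic arcs of nef classes of square zero: curves and dimension counts. -/

set_option autoImplicit false

namespace Pool.Agent.TH102.DP

open Finset
open Pool.Agent.H350R3 Pool.Agent.H350R3.GR
open Pool.Agent.Results.MP_309968_ag.BoundaryRays (MultGE)

/-- a class with positive Euler characteristic is not negative on a nef class -/
theorem nf_le_of_count {ι : Type} [Fintype ι] {t : ι → ℝ} {c : ℝ} (hN : NB.Nf ℂ t c)
    (w : ι → ℕ) (d : ℕ) (h : ∑ i, (w i * (w i + 1) : ℕ) < (d + 1) * (d + 2)) :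
    ∑ i, t i * (w i : ℝ) ≤ c * d := by
  by_contra hcon
  push Not at hcon
  obtain ⟨x, hx⟩ := hN w d hcon
  obtain ⟨g, hg0, hg1, hg2⟩ := Pool.Agent.TH183.SC.exists_poly
    (fun j => w ((Fintype.equivFin ι).symm j)) (fun j => x ((Fintype.equivFin ι).symm j)) d (by
      rw [(Fintype.equivFin ι).symm.sum_comp (fun i => (w i * (w i + 1) : ℕ))]
      exact h)
  refine hg0 (hx g (fun i => ?_) hg2)
  have := hg1 (Fintype.equivFin ι i)
  simpa using this

/-- the two families of inequalities -/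
theorem arc_h {n s k : ℕ} (hs : 1 ≤ s) (hs9 : s ≤ 9) (hk : 1 ≤ k) {g : ℕ → Fin n}
    (hg : Set.InjOn g {i | i < 9 + s + 2 * k}) (d : ℕ) (v : Fin n → ℕ)
    (h : ∀ (ι : Type) [Fintype ι] (t : ι → ℝ) (c : ℝ), NB.Nf ℂ t c →
      ∀ φ : ι → Fin n, Function.Injective φ → ∑ j, t j * (v (φ j) : ℝ) ≤ c * d) :
    0 ≤ 3 * (d : ℝ) - ∑ i ∈ range 9, (v (g i) : ℝ) ∧
    0 ≤ 3 * (d : ℝ) - ∑ i ∈ range 9, (v (g (s + i)) : ℝ) ∧
    ((s * (3 * (d : ℝ) - ∑ i ∈ range 9, (v (g i) : ℝ)) ≤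
        k * (3 * (d : ℝ) - ∑ i ∈ range 9, (v (g (s + i)) : ℝ)) ∨
      s * (3 * (d : ℝ) - ∑ i ∈ range 9, (v (g (s + i)) : ℝ)) ≤
        k * (3 * (d : ℝ) - ∑ i ∈ range 9, (v (g i) : ℝ))) →
      s * (∑ j ∈ range (2 * k), (v (g (9 + s + j)) : ℝ)) ^ 2 ≤
        4 * k * (3 * (d : ℝ) - ∑ i ∈ range 9, (v (g i) : ℝ)) *
          (3 * (d : ℝ) - ∑ i ∈ range 9, (v (g (s + i)) : ℝ))) := by
  obtain ⟨e1, e2, e3⟩ := arc_sums (k := k) hs9 (fun i => (v (g i) : ℝ))
  refine prod_ineq hs hk (sum_nonneg fun j _ => Nat.cast_nonneg _) ?_ ?_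
  · intro x y hx hy hyx
    have h1 := h _ _ _ (nf_arc (a := 9 - s) (by omega) hs hk hx hy hyx)
      (fun z => g (arcIdx s k z)) (by
        intro z z' hz
        exact arcIdx_inj hs9 (hg (arcIdx_lt hs9 z) (arcIdx_lt hs9 z') hz))
    simp only [Fintype.sum_sum_type, Sum.elim_inl, Sum.elim_inr, arcIdx] at h1
    simp only [← mul_sum] at h1
    rw [e1, e2, e3]
    linarith
  · intro x y hx hy hxy
    have h1 := h _ _ _ (nf_arc (a := 9 - s) (by omega) hs hk hy hx hxy)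
      (fun z => g (arcIdx' s k z)) (by
        intro z z' hz
        exact arcIdx'_inj hs9 (hg (arcIdx'_lt hs9 z) (arcIdx'_lt hs9 z') hz))
    simp only [Fintype.sum_sum_type, Sum.elim_inl, Sum.elim_inr, arcIdx'] at h1
    simp only [← mul_sum] at h1
    have e4 : (s : ℝ) * y * x / k = s * x * y / k := by ring
    rw [e4] at h1
    rw [e1, e2, e3]
    linarith

end Pool.Agent.TH102.DP
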