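import Pool.Agent.TH102.DP.ArcRes

set_option autoImplicit false

/-!
# Conic arcs of the nef cone of the blow-up of the plane at 12 or more very general points

Let `1 ≤ s ≤ 9`, `k ≥ 1`, and take `9 + s + 2 k` of the `n` very general points. Let `F₁` and `F₂` be
the anticanonical classes of the blow-ups at the first nine and at the nine points `s, ..., s + 8`
(so `F₁ ^ 2 = F₂ ^ 2 = 0`, `F₁ F₂ = s`), and `Q` the sum of the multiplicities at the last `2 k`
points. Every curve `C` satisfies `0 ≤ F₁ C`, `0 ≤ F₂ C` and `s Q ^ 2 ≤ 4 k (F₁ C) (F₂ C)` (for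
`k < s` under the assumption `s (F₁ C) ≤ k (F₂ C)` or `s (F₂ C) ≤ k (F₁ C)`). A class for which one of
these inequalities fails has `h⁰ = 0 = max (0, χ)`.
-/

namespace Pool.Agent.Results.MP_70e04f_ag.ConicArcs

open Finset Pool.Agent.H350R3

/-- `MultGE a F m`: the form `F` has multiplicity at least `m` at the point `(a 0 : a 1 : 1)`. -/
def MultGE (a : Fin 2 → ℂ) (F : MvPolynomial (Fin 3) ℂ) (m : ℕ) : Prop :=
  ∀ s ∈ (MvPolynomial.aeval
    ![(MvPolynomial.X 0 : MvPolynomial (Fin 2) ℂ) + MvPolynomial.C (a 0),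
      (MvPolynomial.X 1 : MvPolynomial (Fin 2) ℂ) + MvPolynomial.C (a 1),
      (1 : MvPolynomial (Fin 2) ℂ)] F).support, m ≤ s 0 + s 1

/-- The degree of the class `(d; v)` against the anticanonical class
`3 H - E_(g 0) - ... - E_(g 8)`. -/
def anti {n : ℕ} (d : ℕ) (v : Fin n → ℕ) (g : ℕ → Fin n) : ℝ :=
  3 * (d : ℝ) - ∑ i ∈ range 9, (v (g i) : ℝ)

/-- The inequalities for the class `(d; v)` and the points `g 0, ..., g (8 + s + 2 k)`. -/
def Arc {n : ℕ} (s k d : ℕ) (v : Fin n → ℕ) (g : ℕ → Fin n) : Prop :=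
  0 ≤ anti d v g ∧ 0 ≤ anti d v (fun i => g (s + i)) ∧
    ((s ≤ k ∨ s * anti d v g ≤ k * anti d v (fun i => g (s + i)) ∨
      s * anti d v (fun i => g (s + i)) ≤ k * anti d v g) →
      s * (∑ j ∈ range (2 * k), (v (g (9 + s + j)) : ℝ)) ^ 2 ≤
        4 * k * anti d v g * anti d v (fun i => g (s + i)))

theorem arc_of {n : ℕ} {s k d : ℕ} {v : Fin n → ℕ} {g : ℕ → Fin n}
    (h : 0 ≤ anti d v g ∧ 0 ≤ anti d v (fun i => g (s + i)) ∧
      ((s * anti d v g ≤ k * anti d v (fun i => g (s + i)) ∨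
        s * anti d v (fun i => g (s + i)) ≤ k * anti d v g) →
        s * (∑ j ∈ range (2 * k), (v (g (9 + s + j)) : ℝ)) ^ 2 ≤
          4 * k * anti d v g * anti d v (fun i => g (s + i)))) : Arc s k d v g := by
  obtain ⟨h1, h2, h3⟩ := h
  refine ⟨h1, h2, ?_⟩
  rintro (h4 | h4)
  · apply h3
    have h5 : (s : ℝ) ≤ k := by exact_mod_cast h4
    rcases le_total (anti d v g) (anti d v (fun i => g (s + i))) with h6 | h6
    · left
      exact mul_le_mul h5 h6 h1 (Nat.cast_nonneg k)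
    · right
      exact mul_le_mul h5 h6 h2 (Nat.cast_nonneg k)
  · exact h3 h4

theorem result :
    -- the inequalities for all curves
    (∀ n : ℕ, ∃ f : ℕ → MvPolynomial (Fin n × Fin 2) ℂ, (∀ i, f i ≠ 0) ∧
      ∀ p : Fin n → Fin 2 → ℂ,
        (∀ i, MvPolynomial.eval (fun q : Fin n × Fin 2 => p q.1 q.2) (f i) ≠ 0) →
        ∀ (F : MvPolynomial (Fin 3) ℂ) (d : ℕ) (v : Fin n → ℕ),
          F ≠ 0 → F.IsHomogeneous d → (∀ i, MultGE (p i) F (v i)) →
          ∀ (s k : ℕ) (g : ℕ → Fin n), 1 ≤ s → s ≤ 9 → 1 ≤ k →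
            Set.InjOn g {i | i < 9 + s + 2 * k} → Arc s k d v g) ∧
    -- classes which violate them have no positive Euler characteristic
    (∀ (n d s k : ℕ) (v : Fin n → ℕ) (g : ℕ → Fin n), 1 ≤ s → s ≤ 9 → 1 ≤ k →
      Set.InjOn g {i | i < 9 + s + 2 * k} → ¬ Arc s k d v g →
      (d + 1) * (d + 2) ≤ ∑ i, v i * (v i + 1)) := by
  constructor
  · intro n
    obtain ⟨f, hf, hf'⟩ := Pool.Agent.TH102.DP.very_general n
    refine ⟨f, hf, fun p hp F d v hF0 hF hm s k g hs hs9 hk hg => ?_⟩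
    exact arc_of (Pool.Agent.TH102.DP.arc_h hs hs9 hk hg d v
      (fun ι _ t c hN φ hφ => hf' p hp ι t c hN φ hφ F d v hF hF0 hm))
  · intro n d s k v g hs hs9 hk hg hcon
    by_contra hlt
    push Not at hlt
    refine hcon (arc_of (Pool.Agent.TH102.DP.arc_h hs hs9 hk hg d v
      (fun ι _ t c hN φ hφ => ?_)))
    refine Pool.Agent.TH102.DP.nf_le_of_count hN (fun j => v (φ j)) d (lt_of_le_of_lt ?_ hlt)
    refine le_trans (le_of_eq (sum_map univ ⟨φ, hφ⟩ (fun i => v i * (v i + 1))).symm) ?_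
    exact sum_le_sum_of_subset (subset_univ _)

end Pool.Agent.Results.MP_70e04f_ag.ConicArcs
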