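import Pool.Agent.TH102.DP.Absorb
import Pool.Agent.TH819.NagA

/-! Absorbing groups of points, and flattening the remaining quadrilaterals. -/

set_option autoImplicit false

namespace Pool.Agent.TH102.DP

open Finset Pool.Agent.TH176.Nag

/-- change of the index set -/
theorem Emp_pull {ι κ : Type} {S : Set (ℤ × ℤ)} (g : κ → ι) (hg : Function.Surjective g)
    {w : ι → ℕ} {w' : κ → ℕ} (hw : ∀ j, w' j = w (g j)) (h : Emp w S) : Emp w' S := by
  obtain ⟨K, _, _, x, y, hx, hy, hf⟩ := h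
  refine ⟨K, inferInstance, inferInstance, fun j => x (g j), fun j => y (g j), fun j => hx _,
    fun j => hy _, fun f hfS hfL => hf f hfS fun i => ?_⟩
  obtain ⟨j, rfl⟩ := hg i
  have h1 := hfL j
  rwa [hw j] at h1

/-- a group of points is absorbed into the left side -/
theorem Emp_absorbs {ι : Type} {w : ι → ℕ} {S' : Set (ℤ × ℤ)} (h : Emp w S') :
    ∀ (k : ℕ) (v : Fin k → ℕ) (S : Set (ℤ × ℤ)) (_ : S.Finite) (_ : ∀ m ∈ S, 0 ≤ m.2)
      (α : ℤ → ℤ) (_ : ∀ m ∈ S, α m.2 ≤ m.1)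
      (_ : ∀ m ∈ S, α m.2 + ∑ i, max 0 ((v i : ℤ) - m.2) ≤ m.1 → m ∈ S'),
      Emp (Sum.elim v w) S := by
  intro k
  induction k with
  | zero =>
    intro v S _ _ α hα hSS'
    refine Emp_pull (g := Sum.elim (fun i : Fin 0 => i.elim0) id) ?_ ?_ (h.mono ?_)
    · intro i
      exact ⟨Sum.inr i, rfl⟩
    · rintro (i | i)
      · exact i.elim0
      · rfl
    · intro m hm
      refine hSS' m hm ?_
      simpa using hα m hm
  | succ k ih =>
    intro v S hfin hS0 α hα hSS'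
    have h1 := ih (fun i => v i.succ)
      {m | m ∈ S ∧ α m.2 + max 0 ((v 0 : ℤ) - m.2) ≤ m.1}
      (hfin.subset fun m hm => hm.1) (fun m hm => hS0 m hm.1)
      (fun j => α j + max 0 ((v 0 : ℤ) - j)) (fun m hm => hm.2) (by
        intro m hm hle
        refine hSS' m hm.1 ?_
        rw [Fin.sum_univ_succ]
        linarith)
    have h2 := Emp_absorb (v 0) hfin hS0 α hα (by
      intro m hm hle
      refine ⟨hm, ?_⟩
      have := hα m hm
      have h3 : max 0 ((v 0 : ℤ) - m.2) ≤ m.1 - α m.2 := max_le (by linarith) (by linarith)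
      linarith) h1
    refine Emp_pull (g := Sum.elim (Fin.cases none fun i => some (Sum.inl i))
      fun j => some (Sum.inr j)) ?_ ?_ h2
    · rintro (_ | i | j)
      · exact ⟨Sum.inl 0, rfl⟩
      · exact ⟨Sum.inl i.succ, by simp⟩
      · exact ⟨Sum.inr j, rfl⟩
    · rintro (i | j)
      · refine Fin.cases ?_ (fun i => ?_) i
        · rfl
        · simp
      · rfl

theorem Reg_finite {α β μ ν : ℝ} (h : 0 < μ + ν) : (Reg α β μ ν).Finite := by
  obtain ⟨Y, hY⟩ := exists_nat_gt ((β - α) / (μ + ν))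
  obtain ⟨X, hX⟩ := exists_nat_gt (|α| + |β| + (|μ| + |ν|) * Y)
  apply Set.Finite.subset (Set.finite_Icc ((-(X : ℤ), 0) : ℤ × ℤ) ((X : ℤ), (Y : ℤ)))
  rintro ⟨a, b⟩ ⟨h1, h2, h3⟩
  simp only at h1 h2 h3
  have hb0 : (0 : ℝ) ≤ b := by exact_mod_cast h1
  have hb : (b : ℝ) ≤ Y := by
    have h4 : (μ + ν) * (b : ℝ) ≤ β - α := by linarith
    have h5 : (b : ℝ) ≤ (β - α) / (μ + ν) := by
      rw [le_div_iff₀ h]; linarith
    linarith
  have k1 : |μ * b| ≤ |μ| * Y := by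
    rw [abs_mul, abs_of_nonneg hb0]
    exact mul_le_mul_of_nonneg_left hb (abs_nonneg _)
  have k2 : |ν * b| ≤ |ν| * Y := by
    rw [abs_mul, abs_of_nonneg hb0]
    exact mul_le_mul_of_nonneg_left hb (abs_nonneg _)
  have e1 := abs_le.1 k1
  have e2 := abs_le.1 k2
  have e3 := neg_abs_le α
  have e4 := le_abs_self β
  have e5 := abs_nonneg α
  have e6 := abs_nonneg β
  have e7 : (0 : ℝ) ≤ |μ| * Y := by positivity
  have e8 : (0 : ℝ) ≤ |ν| * Y := by positivity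
  have h6 : (a : ℝ) ≤ X := by nlinarith
  have h7 : -(X : ℝ) ≤ a := by nlinarith
  rw [Set.mem_Icc, Prod.mk_le_mk, Prod.mk_le_mk]
  exact ⟨⟨by exact_mod_cast h7, h1⟩, by exact_mod_cast h6, by exact_mod_cast hb⟩

/-- the quadrilateral left over after two groups -/
def Quad (α V β μ ν : ℝ) (k : ℕ) : Set (ℤ × ℤ) :=
  {m | 0 ≤ m.2 ∧ α + μ * (m.2 : ℝ) ≤ (m.1 : ℝ) ∧ α + V + (μ - k) * (m.2 : ℝ) ≤ (m.1 : ℝ) ∧
    (m.1 : ℝ) ≤ β - ν * (m.2 : ℝ)}

theorem sum_max_le {k : ℕ} (v : Fin k → ℕ) (y : ℤ) :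
    (∑ i, (v i : ℝ)) - k * (y : ℝ) ≤ ((∑ i, max 0 ((v i : ℤ) - y) : ℤ) : ℝ) := by
  push_cast
  have h1 : ∑ i, ((v i : ℝ) - y) ≤ ∑ i, max 0 ((v i : ℝ) - y) :=
    sum_le_sum fun i _ => le_max_right _ _
  rw [sum_sub_distrib, sum_const, card_univ, Fintype.card_fin, nsmul_eq_mul] at h1
  exact h1

theorem sum_max_nonneg {k : ℕ} (v : Fin k → ℕ) (y : ℤ) :
    (0 : ℝ) ≤ ((∑ i, max 0 ((v i : ℤ) - y) : ℤ) : ℝ) := by
  exact_mod_cast sum_nonneg fun i _ => le_max_left _ _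

/-- two groups are absorbed into the left side of a triangle -/
theorem Emp_quad {ι : Type} {w : ι → ℕ} {a k : ℕ} (u : Fin a → ℕ) (v : Fin k → ℕ)
    {α β μ ν : ℝ} (hpos : 0 < μ + ν)
    (h : Emp w (Quad (α + ∑ i, (u i : ℝ)) (∑ i, (v i : ℝ)) β (μ - a) ν k)) :
    Emp (Sum.elim u (Sum.elim v w)) (Reg α β μ ν) := by
  have hfin := Reg_finite (α := α) (β := β) hpos
  have h1 := Emp_absorbs h k v
    {m | m ∈ Reg α β μ ν ∧ ⌈α + μ * (m.2 : ℝ)⌉ + ∑ i, max 0 ((u i : ℤ) - m.2) ≤ m.1}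
    (hfin.subset fun m hm => hm.1) (fun m hm => hm.1.1)
    (fun j => ⌈α + μ * (j : ℝ)⌉ + ∑ i, max 0 ((u i : ℤ) - j)) (fun m hm => hm.2) (by
      rintro ⟨p, q⟩ ⟨⟨k1, k2, k3⟩, k4⟩ k5
      simp only at k1 k2 k3 k4 k5
      have c1 := Int.le_ceil (α + μ * (q : ℝ))
      have c2 := sum_max_le u q
      have c3 := sum_max_le v q
      have c4 : ((⌈α + μ * (q : ℝ)⌉ : ℤ) : ℝ) + ((∑ i, max 0 ((u i : ℤ) - q) : ℤ) : ℝ) +
          ((∑ i, max 0 ((v i : ℤ) - q) : ℤ) : ℝ) ≤ p := by exact_mod_cast k5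
      have c5 := sum_max_nonneg v q
      refine ⟨k1, ?_, ?_, k3⟩
      · simp only
        linarith
      · simp only
        linarith)
  refine Emp_absorbs h1 a u (Reg α β μ ν) hfin (fun m hm => hm.1)
    (fun j => ⌈α + μ * (j : ℝ)⌉) (fun m hm => Int.ceil_le.2 hm.2.1) ?_
  intro m hm hle
  exact ⟨hm, hle⟩

/-- flattening, first case -/
theorem flat_I {ι : Type} {w : ι → ℕ} {a k : ℕ} {α V β μ ν α' β' μ' ν' : ℝ}
    (hs : 0 < μ + ν) (h1 : 0 ≤ a * μ + 1 - a * k) (h2 : a * ν ≤ 1)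
    (hα : α' = a * (α + V)) (hβ : β' * (μ + ν) = -(1 - a * ν) * α + (1 + a * μ) * β)
    (hμ : μ' = a * (a * μ + 1 - a * k)) (hν : ν' * (μ + ν) = (1 - a * ν) * (1 + a * μ))
    (h : Emp w (Reg α' β' μ' ν')) : Emp w (Quad α V β μ ν k) := by
  refine Emp_flat (a : ℤ) 1 0 1 (by ring) ?_ h
  rintro ⟨p, q⟩ T l ⟨hb, hl, hl2, hr⟩ ⟨hb', hl', hl2', hr'⟩ hk
  simp only at hb hl hl2 hr hb' hl' hl2' hr'
  push_cast at hl' hl2' hr'
  have ha : (0 : ℝ) ≤ a := Nat.cast_nonneg a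
  have hb0 : (0 : ℝ) ≤ q := by exact_mod_cast hb
  have hk' : (l : ℝ) ≤ T := by exact_mod_cast hk
  have h1' : 0 ≤ a * μ + 1 := by
    have : (0 : ℝ) ≤ (a : ℝ) * k := by positivity
    linarith
  refine ⟨by simp, ?_, ?_⟩
  · simp only
    push_cast
    rw [hα, hμ]
    have e : (a : ℝ) * p + 1 * q - (a * (α + V) + a * (a * μ + 1 - a * k) * l) =
        a * (p - 1 * T - (α + V + (μ - k) * (q + a * T))) + (a * μ + 1 - a * k) * q +
          a * (a * μ + 1 - a * k) * (T - l) := by ring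
    have p1 : 0 ≤ (a : ℝ) * (p - 1 * T - (α + V + (μ - k) * (q + a * T))) :=
      mul_nonneg ha (by linarith)
    have p2 : 0 ≤ ((a : ℝ) * μ + 1 - a * k) * q := mul_nonneg h1 hb0
    have p3 : 0 ≤ (a : ℝ) * (a * μ + 1 - a * k) * (T - l) :=
      mul_nonneg (mul_nonneg ha h1) (by linarith)
    linarith
  · simp only
    push_cast
    have e : (μ + ν) * (β' - ν' * l - (a * p + 1 * q)) =
        (1 - a * ν) * (p - 1 * T - (α + μ * (q + a * T))) + (1 + a * μ) * (β - ν * q - p)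
          + (1 - a * ν) * (1 + a * μ) * (T - l) := by
      linear_combination hβ - l * hν
    have p1 : 0 ≤ (1 - a * ν) * (p - 1 * T - (α + μ * (q + a * T))) :=
      mul_nonneg (by linarith) (by linarith)
    have p2 : 0 ≤ (1 + a * μ) * (β - ν * q - p) := mul_nonneg (by linarith) (by linarith)
    have p3 : 0 ≤ (1 - a * ν) * (1 + a * μ) * (T - l) :=
      mul_nonneg (mul_nonneg (by linarith) (by linarith)) (by linarith)
    have p4 : 0 ≤ (μ + ν) * (β' - ν' * l - (a * p + 1 * q)) := by rw [e]; linarith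
    have p5 := nonneg_of_mul_nonneg_right p4 hs
    linarith

/-- flattening, second case -/
theorem flat_II {ι : Type} {w : ι → ℕ} {a k : ℕ} {α V β μ ν α' β' μ' ν' : ℝ} (hk0 : 0 < k)
    (h0 : 0 ≤ a * μ + 1) (h1 : a * μ + 1 ≤ a * k) (h2 : 1 ≤ a * ν)
    (hα : α' * k = a * k * α + (a * μ + 1) * V) (hβ : β' = a * β)
    (hμ : μ' * k = (a * μ + 1) * (a * k - (a * μ + 1))) (hν : ν' = a * (a * ν - 1))
    (h : Emp w (Reg α' β' μ' ν')) : Emp w (Quad α V β μ ν k) := by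
  refine Emp_flat (a : ℤ) 1 0 1 (by ring) ?_ h
  rintro ⟨p, q⟩ T l ⟨hb, hl, hl2, hr⟩ ⟨hb', hl', hl2', hr'⟩ hk
  simp only at hb hl hl2 hr hb' hl' hl2' hr'
  push_cast at hl' hl2' hr'
  have ha : (0 : ℝ) ≤ a := Nat.cast_nonneg a
  have hb0 : (0 : ℝ) ≤ q := by exact_mod_cast hb
  have hk' : (l : ℝ) ≤ T := by exact_mod_cast hk
  have hkR : (0 : ℝ) < k := by exact_mod_cast hk0
  refine ⟨by simp, ?_, ?_⟩
  · simp only
    push_cast
    have e : (k : ℝ) * (a * p + 1 * q - (α' + μ' * l)) =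
        (a * μ + 1) * (p - (α + V + (μ - k) * q)) +
        (a * k - (a * μ + 1)) * (p - 1 * T - (α + μ * (q + a * T))) +
          (a * μ + 1) * (a * k - (a * μ + 1)) * (T - l) := by
      linear_combination -hα - l * hμ
    have p1 : 0 ≤ ((a : ℝ) * μ + 1) * (p - (α + V + (μ - k) * q)) :=
      mul_nonneg h0 (by linarith)
    have p2 : 0 ≤ ((a : ℝ) * k - (a * μ + 1)) * (p - 1 * T - (α + μ * (q + a * T))) :=
      mul_nonneg (by linarith) (by linarith)
    have p3 : 0 ≤ ((a : ℝ) * μ + 1) * (a * k - (a * μ + 1)) * (T - l) :=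
      mul_nonneg (mul_nonneg h0 (by linarith)) (by linarith)
    have p4 : 0 ≤ (k : ℝ) * (a * p + 1 * q - (α' + μ' * l)) := by rw [e]; linarith
    have p5 := nonneg_of_mul_nonneg_right p4 hkR
    linarith
  · simp only
    push_cast
    rw [hβ, hν]
    have e : (a : ℝ) * β - a * (a * ν - 1) * l - (a * p + 1 * q) =
        a * (β - ν * (q + a * T) - (p - 1 * T)) + (a * ν - 1) * q +
          a * (a * ν - 1) * (T - l) := by ring
    have p1 : 0 ≤ (a : ℝ) * (β - ν * (q + a * T) - (p - 1 * T)) := mul_nonneg ha (by linarith)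
    have p2 : 0 ≤ ((a : ℝ) * ν - 1) * q := mul_nonneg (by linarith) hb0
    have p3 : 0 ≤ (a : ℝ) * (a * ν - 1) * (T - l) :=
      mul_nonneg (mul_nonneg ha (by linarith)) (by linarith)
    linarith

/-- the last step: the quadrilateral is empty for the third group -/
theorem Emp_quad_final {k n s a : ℕ} (hs : 1 ≤ s) (ha : 1 ≤ a) {h r : ℝ}
    (hsq : s * h ^ 2 = n + k * r ^ 2) (hr : 0 ≤ r) (hrh : r ≤ h) (hkr : k * r ≤ s * h)
    (har : (a : ℝ) = r ∨ ((a : ℝ) = h ∧ 0 < k)) :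
    ∃ μ : ℝ, ∀ (w : Fin n → ℕ) (α V β : ℝ), h * (β - α) - r * V < ∑ i, (w i : ℝ) →
      Emp w (Quad α V β μ (s - μ) k) := by
  have haR : (1 : ℝ) ≤ a := by exact_mod_cast ha
  have hsR : (1 : ℝ) ≤ s := by exact_mod_cast hs
  have ha0 : (a : ℝ) ≠ 0 := by linarith
  have hs0 : (s : ℝ) ≠ 0 := by linarith
  rcases har with har | ⟨har, hk⟩
  · -- first case
    obtain ⟨μ, hμ⟩ : ∃ μ : ℝ, μ = (s * h - 1) / a := ⟨_, rfl⟩
    have e1 : a * μ + 1 = s * h := by rw [hμ]; field_simp; ring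
    refine ⟨μ, fun w α V β hw => ?_⟩
    have e2 : 1 - a * (s - μ) = s * (h - r) := by rw [← har]; linear_combination e1
    refine flat_I (α' := a * (α + V)) (β' := -(h - r) * α + h * β)
      (μ' := a * (a * μ + 1 - a * k)) (ν' := s * h * (h - r)) (by linarith) ?_ ?_ rfl ?_ rfl ?_ ?_
    · rw [e1, har]; linarith
    · have : 0 ≤ s * (h - r) := by
        apply mul_nonneg (by linarith) (by linarith)
      linarith
    · rw [e2]
      have e3 : 1 + a * μ = s * h := by linarith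
      rw [e3]; ring
    · rw [e2]
      have e3 : 1 + a * μ = s * h := by linarith
      rw [e3]; ring
    · apply Pool.Agent.TH819.NagA.Emp_final
      · rw [e1, har]
        exact mul_nonneg hr (by linarith)
      · exact mul_nonneg (mul_nonneg (by linarith) (by linarith)) (by linarith)
      · rw [e1, har, Fintype.card_fin]
        linear_combination hsq
      · rw [har]
        linarith
  · -- second case
    have hkR : (1 : ℝ) ≤ k := by exact_mod_cast hk
    obtain ⟨μ, hμ⟩ : ∃ μ : ℝ, μ = (k * r - 1) / a := ⟨_, rfl⟩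
    have e1 : a * μ + 1 = k * r := by rw [hμ]; field_simp; ring
    refine ⟨μ, fun w α V β hw => ?_⟩
    have e2 : a * (s - μ) - 1 = s * h - k * r := by rw [← har]; linear_combination -e1
    refine flat_II (α' := h * α + r * V) (β' := a * β)
      (μ' := k * r * (h - r)) (ν' := a * (a * (s - μ) - 1)) hk ?_ ?_ ?_ ?_ rfl ?_ rfl ?_
    · rw [e1]; positivity
    · rw [e1, har]
      nlinarith
    · linarith
    · rw [e1, har]; ring
    · rw [e1, har]; ring
    · apply Pool.Agent.TH819.NagA.Emp_final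
      · exact mul_nonneg (mul_nonneg (by linarith) hr) (by linarith)
      · rw [e2, har]
        exact mul_nonneg (by linarith) (by linarith)
      · rw [e2, har, Fintype.card_fin]
        linear_combination hsq
      · rw [har]
        linarith

end Pool.Agent.TH102.DP
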