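import Pool.Agent.TH698.NagT3
import Pool.Agent.TH102.DP.Tube

/-! Cutting a finite region by a line of real slope. -/

set_option autoImplicit false

namespace Pool.Agent.TH102.DP

open Finset Pool.Agent.TH176.Nag

/-- all coordinates of a finite set are bounded -/
theorem exists_bound {S : Set (ℤ × ℤ)} (hS : S.Finite) :
    ∃ M : ℕ, ∀ m ∈ S, |m.1| ≤ M ∧ |m.2| ≤ M := by
  obtain ⟨T, hT⟩ := hS.exists_finset_coe
  refine ⟨(T.sup fun m => m.1.natAbs) + (T.sup fun m => m.2.natAbs), fun m hm => ?_⟩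
  rw [← hT] at hm
  have h1 : m.1.natAbs ≤ T.sup fun m => m.1.natAbs :=
    Finset.le_sup (f := fun m : ℤ × ℤ => m.1.natAbs) (by exact_mod_cast hm)
  have h2 : m.2.natAbs ≤ T.sup fun m => m.2.natAbs :=
    Finset.le_sup (f := fun m : ℤ × ℤ => m.2.natAbs) (by exact_mod_cast hm)
  push_cast
  constructor <;> rw [Int.abs_eq_natAbs] <;> omega

/-- cutting by a line of rational slope, any coordinates -/
theorem Emp_cutZ {ι κ : Type} [Finite ι] [Finite κ] {w : ι → ℕ} {v : κ → ℕ} {S T : Set (ℤ × ℤ)}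
    (hS : S.Finite) (hT : T.Finite) (a b : ℤ)
    (hcut : ∀ m ∈ S, ∀ m' ∈ T, a * m.1 + b * m.2 < a * m'.1 + b * m'.2)
    (h1 : Emp w S) (h2 : Emp v T) : Emp (Sum.elim w v) (S ∪ T) := by
  obtain ⟨M, hM⟩ := exists_bound hS
  obtain ⟨N, hN⟩ := exists_bound hT
  let P : ℤ := M + N
  let g : ℤ × ℤ → ℤ × ℤ := fun m => (m.1 + P, m.2 + P)
  have hP : P = M + N := rfl
  have k1 : Emp w (g '' S) := by
    refine h1.comap 1 0 0 1 (-P) (-P) (by norm_num) ?_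
    rintro m ⟨m', hm', rfl⟩
    have e : (1 * (g m').1 + 0 * (g m').2 + -P, 0 * (g m').1 + 1 * (g m').2 + -P) = m' := by
      simp only [g]
      ext <;> simp
    rw [e]
    exact hm'
  have k2 : Emp v (g '' T) := by
    refine h2.comap 1 0 0 1 (-P) (-P) (by norm_num) ?_
    rintro m ⟨m', hm', rfl⟩
    have e : (1 * (g m').1 + 0 * (g m').2 + -P, 0 * (g m').1 + 1 * (g m').2 + -P) = m' := by
      simp only [g]
      ext <;> simp
    rw [e]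
    exact hm'
  have k3 := Pool.Agent.TH698.NagT3.Emp_cut (hS.image g) (hT.image g) (by
      rintro m ⟨m', hm', rfl⟩
      obtain ⟨h3, h4⟩ := hM m' hm'
      have h5 := abs_le.1 h3
      have h6 := abs_le.1 h4
      simp only [g]
      constructor <;> omega) (by
      rintro m ⟨m', hm', rfl⟩
      obtain ⟨h3, h4⟩ := hN m' hm'
      have h5 := abs_le.1 h3
      have h6 := abs_le.1 h4
      simp only [g]
      constructor <;> omega) a b (by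
      rintro m ⟨m0, hm0, rfl⟩ m' ⟨m1, hm1, rfl⟩
      have h3 := hcut m0 hm0 m1 hm1
      simp only [g]
      nlinarith) k1 k2
  refine k3.comap 1 0 0 1 P P (by norm_num) ?_
  rintro m hm
  have e : (1 * m.1 + 0 * m.2 + P, 0 * m.1 + 1 * m.2 + P) = g m := by
    simp only [g]
    ext <;> simp
  rw [e]
  rcases hm with hm | hm
  · exact Or.inl ⟨m, hm, rfl⟩
  · exact Or.inr ⟨m, hm, rfl⟩

/-- cutting by a line of real slope -/
theorem Emp_cutR {ι κ : Type} [Finite ι] [Finite κ] {w : ι → ℕ} {v : κ → ℕ} {S T : Set (ℤ × ℤ)}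
    (hS : S.Finite) (hT : T.Finite) (θ c : ℝ) (hS1 : ∀ m ∈ S, (m.1 : ℝ) + θ * m.2 ≤ c)
    (hT1 : ∀ m ∈ T, c < (m.1 : ℝ) + θ * m.2)
    (h1 : Emp w S) (h2 : Emp v T) : Emp (Sum.elim w v) (S ∪ T) := by
  obtain ⟨M, hM⟩ := exists_bound hS
  obtain ⟨N, hN⟩ := exists_bound hT
  obtain ⟨ε, hε, hε'⟩ : ∃ ε : ℝ, 0 < ε ∧ ∀ m ∈ T, c + ε ≤ (m.1 : ℝ) + θ * m.2 := by
    obtain ⟨T', hT'⟩ := hT.exists_finset_coe
    by_cases hne : T'.Nonempty
    · obtain ⟨m0, hm0, hmin⟩ := T'.exists_min_image (fun m : ℤ × ℤ => (m.1 : ℝ) + θ * m.2) hne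
      refine ⟨(m0.1 : ℝ) + θ * m0.2 - c, ?_, ?_⟩
      · have := hT1 m0 (by rw [← hT']; exact_mod_cast hm0)
        linarith
      · intro m hm
        have := hmin m (by rw [← hT'] at hm; exact_mod_cast hm)
        linarith
    · refine ⟨1, one_pos, fun m hm => ?_⟩
      exfalso
      apply hne
      refine ⟨m, ?_⟩
      rw [← hT'] at hm
      exact_mod_cast hm
  obtain ⟨n, hn⟩ := exists_nat_gt (((M : ℝ) + N) / ε)
  rw [div_lt_iff₀ hε] at hn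
  have hf1 := Int.floor_le ((n : ℝ) * θ)
  have hf2 := Int.lt_floor_add_one ((n : ℝ) * θ)
  refine Emp_cutZ hS hT (n : ℤ) ⌊(n : ℝ) * θ⌋ ?_ h1 h2
  intro m hm m' hm'
  have k1 := hS1 m hm
  have k2 := hε' m' hm'
  obtain ⟨-, k3⟩ := hM m hm
  obtain ⟨-, k4⟩ := hN m' hm'
  have k3' : |(m.2 : ℝ)| ≤ M := by exact_mod_cast k3
  have k4' : |(m'.2 : ℝ)| ≤ N := by exact_mod_cast k4
  have k5 := abs_le.1 k3'
  have k6 := abs_le.1 k4'
  obtain ⟨δ, hδ⟩ : ∃ δ : ℝ, δ = (n : ℝ) * θ - ⌊(n : ℝ) * θ⌋ := ⟨_, rfl⟩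
  have hδ0 : 0 ≤ δ := by rw [hδ]; linarith
  have hδ1 : δ ≤ 1 := by rw [hδ]; linarith
  have hn0 : (0 : ℝ) ≤ n := Nat.cast_nonneg n
  have k7 : (n : ℝ) * (ε) ≤ n * ((m'.1 + θ * m'.2) - (m.1 + θ * m.2)) :=
    mul_le_mul_of_nonneg_left (by linarith) hn0
  have k8 : δ * (m'.2 - m.2) ≤ (M : ℝ) + N := by
    rcases le_total 0 ((m'.2 : ℝ) - m.2) with h | h
    · have : δ * ((m'.2 : ℝ) - m.2) ≤ 1 * ((m'.2 : ℝ) - m.2) := mul_le_mul_of_nonneg_right hδ1 h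
      linarith
    · have : δ * ((m'.2 : ℝ) - m.2) ≤ 0 := mul_nonpos_of_nonneg_of_nonpos hδ0 h
      have : (0 : ℝ) ≤ (M : ℝ) + N := by positivity
      linarith
  have k9 : ((n : ℝ) * m.1 + ⌊(n : ℝ) * θ⌋ * m.2) < n * m'.1 + ⌊(n : ℝ) * θ⌋ * m'.2 := by
    have e1 : ((⌊(n : ℝ) * θ⌋ : ℤ) : ℝ) = n * θ - δ := by rw [hδ]; ring
    rw [e1]
    nlinarith
  exact_mod_cast k9

end Pool.Agent.TH102.DP
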