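import Pool.Agent.TH102.DP.Arc

/-! A parallelogram of real slope, cut into strips and triangles. -/

set_option autoImplicit false

namespace Pool.Agent.TH102.DP

open Finset Pool.Agent.TH176.Nag Pool.Agent.TH181.Nag
open Pool.Agent.H350R3 Pool.Agent.H350R3.GR

/-- more points -/
theorem Emp_inj {ι κ : Type} {w : ι → ℕ} {w' : κ → ℕ} {S : Set (ℤ × ℤ)} (g : ι → κ)
    (hg : Function.Injective g) (hw : ∀ i, w' (g i) = w i) (h : Emp w S) : Emp w' S := by
  obtain ⟨K, _, _, x, y, hx, hy, hf⟩ := h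
  refine ⟨K, _, inferInstance, Function.extend g x (fun _ => 1),
    Function.extend g y (fun _ => 1), ?_, ?_, ?_⟩
  · intro k
    by_cases hk : ∃ i, g i = k
    · obtain ⟨i, rfl⟩ := hk
      rw [hg.extend_apply]; exact hx i
    · rw [Function.extend_apply' _ _ _ hk]; exact one_ne_zero
  · intro k
    by_cases hk : ∃ i, g i = k
    · obtain ⟨i, rfl⟩ := hk
      rw [hg.extend_apply]; exact hy i
    · rw [Function.extend_apply' _ _ _ hk]; exact one_ne_zero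
  · intro f h1 h2
    refine hf f h1 fun i => ?_
    have h3 := h2 (g i)
    rwa [hg.extend_apply, hg.extend_apply, hw] at h3

theorem Emp_none {ι : Type} (w : ι → ℕ) {S : Set (ℤ × ℤ)} (hS : ∀ p, p ∉ S) : Emp w S := by
  refine ⟨ℚ, inferInstance, inferInstance, fun _ => 1, fun _ => 1, fun _ => one_ne_zero,
    fun _ => one_ne_zero, fun f hf _ => ?_⟩
  rw [← Finsupp.support_eq_empty, Finset.eq_empty_iff_forall_notMem]
  intro p hp
  exact hS p (hf (by exact_mod_cast hp))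

/-- a triangle with the right real slope is exact for `m` points -/
theorem PS_triP {m p : ℕ} {σ lam : ℝ} (hσ : 0 < σ) (hσm : p ^ 2 * σ ≤ m) (v : ℤ)
    (hc : IsCoprime (p : ℤ) v) (hlam : p * lam + v = √(m * σ)) :
    PS (√(m : ℝ)) (Fin m) lam (σ - lam) := by
  have hm0 : (0 : ℝ) ≤ m := Nat.cast_nonneg m
  have hp0 : (0 : ℝ) ≤ p := Nat.cast_nonneg p
  have hr0 : 0 ≤ √(m * σ) := Real.sqrt_nonneg _
  have hr2 : √(m * σ) ^ 2 = m * σ := Real.sq_sqrt (by positivity)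
  have hrσ : p * σ ≤ √(m * σ) := by
    refine Real.le_sqrt_of_sq_le ?_
    have := mul_le_mul_of_nonneg_right hσm hσ.le
    linarith
  obtain ⟨r, hr⟩ : ∃ r, r = √(m * σ) := ⟨_, rfl⟩
  rw [← hr] at hlam hr0 hr2 hrσ
  have hpr : p * r ≤ m := by
    rw [← pow_le_pow_iff_left₀ (by positivity) hm0 two_ne_zero]
    have := mul_le_mul_of_nonneg_left hσm hm0
    rw [mul_pow, hr2]
    linarith
  refine PS.stepA (p : ℤ) v hc (by positivity) ?_ ?_ ?_ ?_
  · push_cast; linarith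
  · push_cast; linarith
  · linarith
  have e1 : ((p : ℤ) : ℝ) * (((p : ℤ) : ℝ) * lam + (v : ℝ)) = p * r := by
    push_cast; rw [hlam]
  have e2 : ((v : ℝ) - ((p : ℤ) : ℝ) * (σ - lam)) * (((p : ℤ) : ℝ) * lam + (v : ℝ)) /
      (lam + (σ - lam)) = m - p * r := by
    push_cast
    rw [show (lam + (σ - lam) : ℝ) = σ by ring, div_eq_iff hσ.ne', hlam]
    have e3 : (v : ℝ) = r - p * lam := by linarith
    rw [e3]
    linear_combination hr2
  rw [e1, e2]
  have h1 := PS.final (ι := Fin m) (μ := p * r) (ν := m - p * r) (by positivity) (by linarith) (by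
    rw [Fintype.card_fin]; ring)
  rwa [Fintype.card_fin] at h1

/-- a parallelogram of the right slope holds `2 m` points -/
theorem Emp_para {m p : ℕ} {x W lam : ℝ} (hm : 1 ≤ m) (hx : 0 < x) (hW : 0 < W)
    (hWm : p ^ 2 * W ≤ m * x) (v : ℤ) (hc : IsCoprime (p : ℤ) v)
    (hlam : p * lam + v = √(m * (W / x))) (α : ℝ)
    (w₁ w₂ : Fin m → ℕ) (hw₁ : ∀ j, √(x * W / m) < w₁ j) (hw₂ : ∀ j, √(x * W / m) < w₂ j)
    {R : Set (ℤ × ℤ)} (hR : R.Finite) (hR0 : ∀ p ∈ R, 0 ≤ p.2) (hRx : ∀ p ∈ R, (p.2 : ℝ) ≤ x)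
    (hR1 : ∀ p ∈ R, α + lam * p.2 ≤ p.1) (hR2 : ∀ p ∈ R, (p.1 : ℝ) ≤ α + W + lam * p.2) :
    Emp (Sum.elim w₁ w₂) R := by
  have hmR : (1 : ℝ) ≤ m := by exact_mod_cast hm
  obtain ⟨σ, hσ⟩ : ∃ σ : ℝ, σ = W / x := ⟨_, rfl⟩
  have hσ0 : 0 < σ := by rw [hσ]; positivity
  have hσx : σ * x = W := by rw [hσ]; field_simp
  have hσm : p ^ 2 * σ ≤ m := by
    rw [hσ, mul_div_assoc', div_le_iff₀ hx]; exact hWm
  rw [← hσ] at hlam
  have hPS := PS_triP hσ0 hσm v hc hlam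
  obtain ⟨b, hb⟩ : ∃ b : ℝ, b = √(x * W / m) := ⟨_, rfl⟩
  have hb2 : b = x * √σ / √m := by
    rw [hb, eq_div_iff (Real.sqrt_pos.2 (by linarith)).ne', ← Real.sqrt_mul (by positivity)]
    rw [show x * W / m * (m : ℝ) = x ^ 2 * σ by
      have : x ^ 2 * σ = x * (σ * x) := by ring
      rw [this, hσx]; field_simp]
    rw [Real.sqrt_mul (sq_nonneg _), Real.sqrt_sq hx.le]
  have hsm0 : 0 < √(m : ℝ) := Real.sqrt_pos.2 (by linarith)
  have hsm2 : √(m : ℝ) ^ 2 = m := Real.sq_sqrt (by linarith)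
  have hsσ0 : 0 < √σ := Real.sqrt_pos.2 hσ0
  have hsσ2 : √σ ^ 2 = σ := Real.sq_sqrt hσ0.le
  have hT : ∀ (w : Fin m → ℕ), (∀ j, b < w j) → ∀ α : ℝ,
      Emp w (Reg α (α + W) lam (σ - lam)) := by
    intro w hw α
    have h1 := hPS w (x * √σ) (by positivity) (by
      have h2 : ∑ _j : Fin m, b < ∑ j, (w j : ℝ) :=
        sum_lt_sum_of_nonempty ⟨⟨0, by omega⟩, mem_univ _⟩ fun j _ => hw j
      rw [sum_const, card_univ, Fintype.card_fin, nsmul_eq_mul, hb2] at h2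
      refine lt_of_le_of_lt (le_of_eq ?_) h2
      rw [mul_div_assoc']
      rw [eq_div_iff hsm0.ne']
      linear_combination (x * √σ) * hsm2) α
    have e1 : x * √σ * √(lam + (σ - lam)) = W := by
      rw [show lam + (σ - lam) = σ by ring]
      linear_combination x * hsσ2 + hσx
    rwa [e1] at h1
  obtain ⟨h0, hh0⟩ : ∃ h0 : ℤ, h0 = ⌊x⌋ := ⟨_, rfl⟩
  have hh1 : (h0 : ℝ) ≤ x := by rw [hh0]; exact Int.floor_le x
  have hrow : ∀ p ∈ R, p.2 ≤ h0 := by
    intro p hp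
    rw [hh0, Int.le_floor]
    exact hRx p hp
  obtain ⟨S1, hS1d⟩ : ∃ S1 : Set (ℤ × ℤ), S1 = {p | p ∈ R ∧
      (p.1 : ℝ) + (σ - lam) * p.2 ≤ α + W} := ⟨_, rfl⟩
  obtain ⟨S2, hS2d⟩ : ∃ S2 : Set (ℤ × ℤ), S2 = {p | p ∈ R ∧
      α + W < (p.1 : ℝ) + (σ - lam) * p.2} := ⟨_, rfl⟩
  have f1 : S1.Finite := hR.subset fun p hp => by rw [hS1d] at hp; exact hp.1
  have f2 : S2.Finite := hR.subset fun p hp => by rw [hS2d] at hp; exact hp.1
  have g1 : Emp w₁ S1 := by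
    refine (hT w₁ (by rw [hb]; exact hw₁) α).mono ?_
    intro p hp
    rw [hS1d] at hp
    obtain ⟨k1, k3⟩ := hp
    have k4 := hR1 p k1
    exact ⟨hR0 p k1, k4, by linarith⟩
  have g2 : Emp w₂ S2 := by
    refine (hT w₂ (by rw [hb]; exact hw₂) (-(α + W + lam * h0))).comap (-1) 0 0 (-1) 0 h0
      (by norm_num) ?_
    intro p hp
    rw [hS2d] at hp
    obtain ⟨k1, k3⟩ := hp
    have k2 := hrow p k1
    have k4 := hR1 p k1
    have k5 := hR2 p k1
    have k6 : σ * h0 ≤ W := by rw [← hσx]; exact mul_le_mul_of_nonneg_left hh1 hσ0.le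
    refine ⟨by simp only; omega, ?_, ?_⟩
    · simp only
      push_cast
      linarith
    · simp only
      push_cast
      linarith
  have g4 := Emp_cutR f1 f2 (σ - lam) (α + W) (by
    intro p hp
    rw [hS1d] at hp
    exact hp.2) (by
    intro p hp
    rw [hS2d] at hp
    exact hp.2) g1 g2
  refine g4.mono ?_
  intro p hp
  by_cases h2 : (p.1 : ℝ) + (σ - lam) * p.2 ≤ α + W
  · left
    rw [hS1d]
    exact ⟨hp, h2⟩
  · right
    rw [hS2d]
    exact ⟨hp, by linarith⟩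

/-- strips side by side -/
theorem Emp_strips {x lam : ℝ} (hx : 0 < x) : ∀ (J : ℕ) (m p : Fin J → ℕ) (W : Fin J → ℝ)
    (v : Fin J → ℤ) (_ : ∀ j, 1 ≤ m j) (_ : ∀ j, 0 < W j) (_ : ∀ j, p j ^ 2 * W j ≤ m j * x)
    (_ : ∀ j, IsCoprime (p j : ℤ) (v j)) (_ : ∀ j, p j * lam + v j = √(m j * (W j / x))) (α : ℝ)
    (w : (Σ j : Fin J, Fin (m j) ⊕ Fin (m j)) → ℕ) (_ : ∀ p, √(x * W p.1 / m p.1) < w p)
    {R : Set (ℤ × ℤ)} (_ : R.Finite) (_ : ∀ p ∈ R, 0 ≤ p.2) (_ : ∀ p ∈ R, (p.2 : ℝ) ≤ x)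
    (_ : ∀ p ∈ R, α + lam * p.2 < p.1) (_ : ∀ p ∈ R, (p.1 : ℝ) ≤ α + ∑ j, W j + lam * p.2),
    Emp w R := by
  intro J
  induction J with
  | zero =>
    intro m p W v _ _ _ _ _ α w _ R _ _ _ h1 h2
    refine Emp_none w fun p hp => ?_
    have k1 := h1 p hp
    have k2 := h2 p hp
    rw [Fin.sum_univ_zero] at k2
    linarith
  | succ J ih =>
    intro m u W v hm hW hWm hc hlam α w hw R hR hR0 hRx hR1 hR2
    obtain ⟨S1, hS1d⟩ : ∃ S1 : Set (ℤ × ℤ), S1 = {p | p ∈ R ∧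
        (p.1 : ℝ) + (-lam) * p.2 ≤ α + W 0} := ⟨_, rfl⟩
    obtain ⟨S2, hS2d⟩ : ∃ S2 : Set (ℤ × ℤ), S2 = {p | p ∈ R ∧
        α + W 0 < (p.1 : ℝ) + (-lam) * p.2} := ⟨_, rfl⟩
    have f1 : S1.Finite := hR.subset fun p hp => by rw [hS1d] at hp; exact hp.1
    have f2 : S2.Finite := hR.subset fun p hp => by rw [hS2d] at hp; exact hp.1
    have g1 : Emp (Sum.elim (fun i => w ⟨0, Sum.inl i⟩) (fun i => w ⟨0, Sum.inr i⟩)) S1 := by
      refine Emp_para (hm 0) hx (hW 0) (hWm 0) (v 0) (hc 0) (hlam 0) α _ _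
        (fun i => hw ⟨0, Sum.inl i⟩)
        (fun i => hw ⟨0, Sum.inr i⟩) f1 ?_ ?_ ?_ ?_ <;> intro p hp <;> rw [hS1d] at hp
      · exact hR0 p hp.1
      · exact hRx p hp.1
      · exact (hR1 p hp.1).le
      · have := hp.2
        linarith
    have g2 : Emp (fun p : (Σ j : Fin J, Fin (m j.succ) ⊕ Fin (m j.succ)) =>
        w ⟨p.1.succ, p.2⟩) S2 := by
      refine ih (fun j => m j.succ) (fun j => u j.succ) (fun j => W j.succ) (fun j => v j.succ)
        (fun j => hm _) (fun j => hW _) (fun j => hWm _) (fun j => hc _) (fun j => hlam _)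
        (α + W 0) _
        (fun p => hw ⟨p.1.succ, p.2⟩) f2 ?_ ?_ ?_ ?_ <;> intro p hp <;> rw [hS2d] at hp
      · exact hR0 p hp.1
      · exact hRx p hp.1
      · have := hp.2
        linarith
      · have := hR2 p hp.1
        rw [Fin.sum_univ_succ] at this
        linarith
    have g3 := Emp_cutR f1 f2 (-lam) (α + W 0) (by
      intro p hp
      rw [hS1d] at hp
      exact hp.2) (by
      intro p hp
      rw [hS2d] at hp
      exact hp.2) g1 g2
    have g4 : Emp w (S1 ∪ S2) := by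
      refine Emp_inj (Sum.elim (fun i => ⟨0, i⟩) (fun p => ⟨p.1.succ, p.2⟩)) ?_ ?_ g3
      · rintro (a | ⟨a, b⟩) (c | ⟨c, e⟩) h <;>
          simp only [Sum.elim_inl, Sum.elim_inr, Sigma.mk.injEq] at h
        · rw [eq_of_heq h.2]
        · exact absurd h.1.symm (Fin.succ_ne_zero _)
        · exact absurd h.1 (Fin.succ_ne_zero _)
        · obtain ⟨h1, h2⟩ := h
          have h3 := Fin.succ_injective _ h1
          subst h3
          rw [eq_of_heq h2]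
      · rintro ((i | i) | p) <;> rfl
    refine g4.mono ?_
    intro p hp
    by_cases h2 : (p.1 : ℝ) + (-lam) * p.2 ≤ α + W 0
    · left
      rw [hS1d]
      exact ⟨hp, h2⟩
    · right
      rw [hS2d]
      exact ⟨hp, by linarith⟩

end Pool.Agent.TH102.DP
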