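import Pool.Agent.TH102.DP.Strip
import Pool.Agent.TH102.DP.ArcNf

/-! Several groups of points in one parallelogram: nef classes of square zero. -/

set_option autoImplicit false

namespace Pool.Agent.TH102.DP

open Finset Pool.Agent.TH176.Nag Pool.Agent.TH181.Nag
open Pool.Agent.H350R3 Pool.Agent.H350R3.GR

/-- the strips and the triangle above them -/
theorem Emp_stripTop {s J : ℕ} {x y lam A B : ℝ} (hs : 1 ≤ s) (hx : 0 < x)
    (m p : Fin J → ℕ) (W : Fin J → ℝ) (v : Fin J → ℤ) (hm : ∀ j, 1 ≤ m j) (hW : ∀ j, 0 < W j)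
    (hWm : ∀ j, p j ^ 2 * W j ≤ m j * x) (hc : ∀ j, IsCoprime (p j : ℤ) (v j))
    (hlam : ∀ j, p j * lam + v j = √(m j * (W j / x)))
    (hsum : ∑ j, W j = s * y)
    (hlam0 : lam ≤ 0) (hlam1 : -s ≤ lam) (hB : B < s * y)
    (w : (Σ j : Fin J, Fin (m j) ⊕ Fin (m j)) → ℕ) (hw : ∀ p, √(x * W p.1 / m p.1) < w p)
    (z : Fin s → ℕ) (hz : ∀ j, y < z j) {R : Set (ℤ × ℤ)} (hR : R.Finite)
    (hR0 : ∀ p ∈ R, 0 ≤ p.2)
    (hS1 : ∀ p ∈ R, (p.2 : ℝ) ≤ x → A + lam * p.2 ≤ p.1 ∧ (p.1 : ℝ) ≤ A + B + lam * p.2)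
    (hS2 : ∀ p ∈ R, x < (p.2 : ℝ) → A - s * x + (lam + s) * p.2 ≤ p.1 ∧
      (p.1 : ℝ) ≤ A + B + lam * p.2) :
    Emp (Sum.elim w z) R := by
  have hsR : (1 : ℝ) ≤ s := by exact_mod_cast hs
  obtain ⟨h0, hh0⟩ : ∃ h0 : ℤ, h0 = ⌊x⌋ := ⟨_, rfl⟩
  have hh1 : (h0 : ℝ) ≤ x := by rw [hh0]; exact Int.floor_le x
  have hh2 : x < h0 + 1 := by rw [hh0]; exact Int.lt_floor_add_one x
  have hrow : ∀ p : ℤ × ℤ, (p.2 : ℝ) ≤ x ↔ p.2 ≤ h0 := by
    intro p
    rw [hh0, Int.le_floor]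
  obtain ⟨S1, hS1d⟩ : ∃ S1 : Set (ℤ × ℤ), S1 = {p | p ∈ R ∧ p.2 ≤ h0} := ⟨_, rfl⟩
  obtain ⟨S3, hS3d⟩ : ∃ S3 : Set (ℤ × ℤ), S3 = {p | p ∈ R ∧ h0 < p.2} := ⟨_, rfl⟩
  have f1 : S1.Finite := hR.subset fun p hp => by rw [hS1d] at hp; exact hp.1
  have f3 : S3.Finite := hR.subset fun p hp => by rw [hS3d] at hp; exact hp.1
  have g1 : Emp w S1 := by
    refine Emp_strips hx J m p W v hm hW hWm hc hlam (A - (s * y - B)) w hw f1 ?_ ?_ ?_ ?_ <;>
      intro p hp <;> rw [hS1d] at hp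
    · exact hR0 p hp.1
    · exact (hrow p).2 hp.2
    · have := (hS1 p hp.1 ((hrow p).2 hp.2)).1
      linarith
    · have := (hS1 p hp.1 ((hrow p).2 hp.2)).2
      rw [hsum]
      linarith
  have g3 : Emp z S3 := by
    have h1 := Pool.Agent.TH819.NagA.Emp_final z (A - s * x + (lam + s) * (h0 + 1))
      (A + B + lam * (h0 + 1)) (lam + s) (-lam) (by linarith) (by linarith) (by
        rw [Fintype.card_fin]; ring) (by
        have h2 : ∑ _j : Fin s, y ≤ ∑ j, (z j : ℝ) := sum_le_sum fun j _ => (hz j).le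
        rw [sum_const, card_univ, Fintype.card_fin, nsmul_eq_mul] at h2
        have h3 : (s : ℝ) * x ≤ s * (h0 + 1) := mul_le_mul_of_nonneg_left hh2.le (by linarith)
        linarith)
    refine h1.comap 1 0 0 1 0 (-(h0 + 1)) (by norm_num) ?_
    intro p hp
    rw [hS3d] at hp
    obtain ⟨k1, k2⟩ := hp
    obtain ⟨k4, k5⟩ := hS2 p k1 (by
      by_contra hcon
      push Not at hcon
      have := (hrow p).1 hcon
      omega)
    refine ⟨by simp only; omega, ?_, ?_⟩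
    · simp only
      push_cast
      linarith
    · simp only
      push_cast
      linarith
  have g5 := Emp_cutZ f1 f3 0 1 (by
    intro p hp p' hp'
    rw [hS3d] at hp'
    rw [hS1d] at hp
    have h1 := hp.2
    have h2 := hp'.2
    omega) g1 g3
  refine g5.mono ?_
  intro p hp
  by_cases h1 : p.2 ≤ h0
  · left
    rw [hS1d]
    exact ⟨hp, h1⟩
  · right
    rw [hS3d]
    exact ⟨hp, by omega⟩

theorem Emp_arcG {a s J : ℕ} (h9 : a + s = 9) (hs : 1 ≤ s) (m t : Fin J → ℕ) (k : Fin J → ℤ)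
    (hm : ∀ j, 1 ≤ m j) {x y r : ℝ} (hx : 0 < x) (hc : ∀ j, IsCoprime (t j : ℤ) (k j))
    (hrk : ∀ j, 0 < t j * r + k j) (hrm : ∀ j, t j * (t j * r + k j) ≤ m j)
    (hsum : ∑ j, x * (t j * r + k j) ^ 2 / m j = s * y)
    (u : Fin a → ℕ) (u' : Fin s → ℕ) (w : (Σ j : Fin J, Fin (m j) ⊕ Fin (m j)) → ℕ)
    (z : Fin s → ℕ) (d : ℕ)
    (hd : (d : ℝ) < 3 * (x + y)) (hu : ∀ i, x + y ≤ u i) (hu' : ∀ i, x ≤ u' i)
    (hw : ∀ p, x * (t p.1 * r + k p.1) / m p.1 < w p) (hz : ∀ i, y < z i) :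
    Emp (Sum.elim u (Sum.elim u' (Sum.elim w z)))
      {p : ℤ × ℤ | 0 ≤ p.1 ∧ 0 ≤ p.2 ∧ p.1 + p.2 ≤ (d : ℤ)} := by
  have h9R : (a : ℝ) + s = 9 := by exact_mod_cast h9
  have hsR : (1 : ℝ) ≤ s := by exact_mod_cast hs
  -- the slope
  obtain ⟨v, hv⟩ : ∃ v : ℤ, v = ⌈r⌉ := ⟨_, rfl⟩
  have hv1 : r ≤ v := by rw [hv]; exact Int.le_ceil r
  have hv2 : (v : ℝ) < r + 1 := by rw [hv]; exact Int.ceil_lt_add_one r
  obtain ⟨lam, hlam⟩ : ∃ lam : ℝ, lam = r - v := ⟨_, rfl⟩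
  obtain ⟨μ, hμ⟩ : ∃ μ : ℝ, μ = lam + 9 := ⟨_, rfl⟩
  obtain ⟨κ, hκ1, hκ2⟩ : ∃ κ : ℤ, 3 < μ + κ ∧ μ + κ < 6 := by
    refine ⟨⌊5 - μ⌋, ?_, ?_⟩
    · have := Int.lt_floor_add_one (5 - μ)
      linarith
    · have := Int.floor_le (5 - μ)
      linarith
  obtain ⟨τ, hτ⟩ : ∃ τ : ℝ, τ = (μ + κ) / 3 - 1 := ⟨_, rfl⟩
  apply Pool.Agent.TH603.EL.Emp_key (τ := τ) (by rw [hτ]; linarith) (by rw [hτ]; linarith)
  have e1 : 3 * (1 + τ) = μ + κ := by rw [hτ]; ring
  have e2 : 3 * (2 - τ) = 9 - μ - κ := by rw [hτ]; ring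
  rw [e1, e2]
  have hmR : ∀ j, (1 : ℝ) ≤ m j := fun j => by exact_mod_cast hm j
  have h1 : Emp (Sum.elim u (Sum.elim u' (Sum.elim w z)))
      (Reg (-((d : ℝ) * (1 + τ))) (d * (2 - τ)) μ (9 - μ)) := by
    obtain ⟨A, hA⟩ : ∃ A : ℝ, A = -((d : ℝ) * (1 + τ)) + a * (x + y) + s * x := ⟨_, rfl⟩
    obtain ⟨B, hB⟩ : ∃ B : ℝ, B = d * (2 - τ) - A := ⟨_, rfl⟩
    have hBlt : B < s * y := by
      have : B = 3 * d - a * (x + y) - s * x := by rw [hB, hA]; ring
      rw [this]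
      have e3 : (a : ℝ) = 9 - s := by linarith
      rw [e3]
      nlinarith
    refine Emp_two u u' (by linarith) (S' := {p | p ∈ Reg (-((d : ℝ) * (1 + τ)))
      (d * (2 - τ)) μ (9 - μ) ∧ -((d : ℝ) * (1 + τ)) + μ * (p.2 : ℝ) +
      ((∑ i, max 0 ((u i : ℤ) - p.2) : ℤ) : ℝ) +
      ((∑ i, max 0 ((u' i : ℤ) - p.2) : ℤ) : ℝ) ≤ (p.1 : ℝ)}) (fun p hp hp' => ⟨hp, hp'⟩) ?_
    refine Emp_stripTop (s := s) (x := x) (y := y) (lam := lam) (A := A) (B := B) hs hx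
      m t (fun j => x * (t j * r + k j) ^ 2 / m j) (fun j => k j + t j * v) hm (fun j => ?_)
      (fun j => ?_) (fun j => (hc j).add_mul_left_right v)
      (fun j => ?_) hsum (by rw [hlam]; linarith) (by rw [hlam]; linarith) hBlt
      w (fun p => ?_) z hz ((Reg_finite (by linarith)).subset fun p hp => hp.1)
      (fun p hp => hp.1.1) ?_ ?_
    · have h2 := hrk j
      have h3 := hmR j
      positivity
    · have h2 := hrk j
      have h3 := hmR j
      have h4 := hrm j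
      rw [mul_div_assoc', div_le_iff₀ (by linarith)]
      have h5 : (t j * (t j * r + k j)) ^ 2 ≤ (m j : ℝ) ^ 2 :=
        pow_le_pow_left₀ (mul_nonneg (Nat.cast_nonneg _) h2.le) h4 2
      have h6 := mul_le_mul_of_nonneg_left h5 hx.le
      linarith
    · have h2 := hrk j
      have h3 := hmR j
      have e3 : (m j : ℝ) * (x * (t j * r + k j) ^ 2 / m j / x) = (t j * r + k j) ^ 2 := by
        field_simp
      rw [e3, Real.sqrt_sq h2.le, hlam]
      push_cast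
      ring
    · have h2 := hrk p.1
      have h3 := hmR p.1
      have e3 : x * (x * (t p.1 * r + k p.1) ^ 2 / m p.1) / m p.1 =
          (x * (t p.1 * r + k p.1) / m p.1) ^ 2 := by
        field_simp
      rw [e3, Real.sqrt_sq (by positivity)]
      exact hw p
    · rintro ⟨p, q⟩ ⟨⟨k1, k2, k3⟩, k4⟩ hq
      simp only at k1 k2 k3 k4 hq ⊢
      have c1 := sum_max_ge hu q
      have c2 := sum_max_ge hu' q
      constructor
      · have e3 : A + lam * q = -((d : ℝ) * (1 + τ)) + μ * q + a * (x + y - q) + s * (x - q) := by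
          rw [hA, hμ]
          linear_combination (q : ℝ) * h9R
        linarith
      · rw [hB]
        have e4 : 9 - μ = -lam := by rw [hμ]; ring
        rw [e4] at k3
        linarith
    · rintro ⟨p, q⟩ ⟨⟨k1, k2, k3⟩, k4⟩ hq
      simp only at k1 k2 k3 k4 hq ⊢
      have c1 := sum_max_ge hu q
      have c2 := sum_max_nonneg u' q
      constructor
      · have e3 : A - s * x + (lam + s) * q = -((d : ℝ) * (1 + τ)) + μ * q + a * (x + y - q) := by
          rw [hA, hμ]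
          linear_combination (q : ℝ) * h9R
        linarith
      · rw [hB]
        have e4 : 9 - μ = -lam := by rw [hμ]; ring
        rw [e4] at k3
        linarith
  refine h1.comap 1 (-κ) 0 1 0 0 (by norm_num) ?_
  rintro ⟨p, q⟩ ⟨k1, k2, k3⟩
  simp only at k1 k2 k3
  refine ⟨by simpa using k1, ?_, ?_⟩
  · simp only
    push_cast
    linarith
  · simp only
    push_cast
    linarith

theorem nf_arcG {a s J : ℕ} (h9 : a + s = 9) (hs : 1 ≤ s) (m t : Fin J → ℕ) (k : Fin J → ℤ)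
    (hm : ∀ j, 1 ≤ m j) {y r : ℝ} (hy : 0 < y) (hc : ∀ j, IsCoprime (t j : ℤ) (k j))
    (hrk : ∀ j, 0 < t j * r + k j) (hrm : ∀ j, t j * (t j * r + k j) ≤ m j)
    (hsum : ∑ j, (t j * r + k j) ^ 2 / m j = s * y) :
    NB.Nf ℂ (Sum.elim (fun _ : Fin a => 1 + y) (Sum.elim (fun _ : Fin s => 1)
      (Sum.elim (fun p : (Σ j : Fin J, Fin (m j) ⊕ Fin (m j)) => (t p.1 * r + k p.1) / m p.1)
        (fun _ : Fin s => y)))) (3 * (1 + y)) := by
  have h9R : (a : ℝ) + s = 9 := by exact_mod_cast h9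
  have hsR : (1 : ℝ) ≤ s := by exact_mod_cast hs
  have hmR : ∀ j, (1 : ℝ) ≤ m j := fun j => by exact_mod_cast hm j
  apply nf_of_ray' (by linarith)
  · simp only [Fintype.sum_sum_type, Sum.elim_inl, Sum.elim_inr, sum_const, card_univ,
      Fintype.card_fin, nsmul_eq_mul, Fintype.sum_sigma]
    have e1 : ∀ j : Fin J, ((Fintype.card (Fin (m j) ⊕ Fin (m j)) : ℕ) : ℝ) *
        ((t j * r + k j) / m j) ^ 2 = 2 * ((t j * r + k j) ^ 2 / m j) := by
      intro j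
      have := hmR j
      rw [Fintype.card_sum, Fintype.card_fin]
      push_cast
      field_simp
      ring
    rw [sum_congr rfl (fun j _ => e1 j), ← mul_sum, hsum]
    have e2 : (a : ℝ) = 9 - s := by linarith
    rw [e2]
    apply le_of_eq
    ring
  · intro N hN
    have hNR : (1 : ℝ) ≤ N := by exact_mod_cast hN
    have hx' : (0 : ℝ) < N := by positivity
    have hy' : 0 < N * y := by positivity
    have hfl : ∀ b : ℝ, 0 ≤ b → (((⌊b⌋₊ + 1 : ℕ) : ℝ)) ≤ b + 1 ∧ b < ((⌊b⌋₊ + 1 : ℕ) : ℝ) := by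
      intro b hb
      push_cast
      exact ⟨by linarith [Nat.floor_le hb], Nat.lt_floor_add_one b⟩
    obtain ⟨d, hd1, hd2⟩ : ∃ d : ℕ, (d : ℝ) < 3 * (N + N * y) ∧
        3 * (1 + y) * N ≤ d + 1 := by
      have hc0 : 0 < 3 * (N + N * y) := by positivity
      have h1 : 0 < ⌈3 * (N + N * y)⌉₊ := Nat.ceil_pos.2 hc0
      refine ⟨⌈3 * (N + N * y)⌉₊ - 1, ?_, ?_⟩
      · have h2 := Nat.ceil_lt_add_one hc0.le
        rw [Nat.cast_sub h1]
        push_cast
        linarith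
      · have h2 := Nat.le_ceil (3 * (N + N * y))
        rw [Nat.cast_sub h1]
        push_cast
        nlinarith
    have hpos : ∀ j, 0 ≤ N * ((t j * r + k j) / m j) := fun j => by
      have h2 := hrk j
      have h3 := hmR j
      positivity
    refine ⟨Sum.elim (fun _ : Fin a => ⌊N * (1 + y)⌋₊ + 1) (Sum.elim (fun _ : Fin s => N + 1)
      (Sum.elim (fun p : (Σ j : Fin J, Fin (m j) ⊕ Fin (m j)) =>
        ⌊N * ((t p.1 * r + k p.1) / m p.1)⌋₊ + 1) (fun _ : Fin s => ⌊N * y⌋₊ + 1))), d,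
        ?_, hd2, ?_⟩
    · rintro (i | i | p | i)
      · exact (hfl _ (by positivity)).1
      · simp only [Sum.elim_inr, Sum.elim_inl]
        push_cast
        linarith
      · exact (hfl _ (hpos p.1)).1
      · exact (hfl _ (by positivity)).1
    · refine Emp_arcG (x := N) (y := N * y) h9 hs m t k hm hx' hc hrk hrm ?_ _ _ _ _ d hd1
        ?_ ?_ ?_ ?_
      · have e1 : ∀ j : Fin J, (N : ℝ) * (t j * r + k j) ^ 2 / m j =
            N * ((t j * r + k j) ^ 2 / m j) := fun j => by ring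
        rw [sum_congr rfl (fun j _ => e1 j), ← mul_sum, hsum]
        ring
      · intro i
        have := (hfl (N * (1 + y)) (by positivity)).2
        linarith
      · intro i
        push_cast
        linarith
      · intro p
        have h2 := (hfl _ (hpos p.1)).2
        refine lt_of_eq_of_lt ?_ h2
        ring
      · intro i
        exact (hfl (N * y) (by positivity)).2

end Pool.Agent.TH102.DP
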