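import Pool.Agent.TH102.DP.StripNf
import Pool.Agent.TH102.DP.ArcRes

/-! Several groups of points: the inequality for sets of points. -/

set_option autoImplicit false

namespace Pool.Agent.TH102.DP

open Finset
open Pool.Agent.H932R3 Pool.Agent.H350R3 Pool.Agent.H350R3.GR

theorem arcG_h {n J : ℕ} (N₁ N₂ : Finset (Fin n)) (m : Fin J → ℕ) (G : Fin J → Finset (Fin n))
    (card₁ : N₁.card = 9) (card₂ : N₂.card = 9) (hne : N₁ ≠ N₂) (pos : ∀ j, 1 ≤ m j)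
    (card : ∀ j, (G j).card = 2 * m j) (disj : ∀ i j, i ≠ j → Disjoint (G i) (G j))
    (disj' : ∀ j, Disjoint (G j) (N₁ ∪ N₂)) (hJ : 1 ≤ J) (d : ℕ) (v : Fin n → ℕ)
    (h : ∀ (ι : Type) [Fintype ι] (t : ι → ℝ) (c : ℝ), NB.Nf ℂ t c →
      ∀ φ : ι → Fin n, Function.Injective φ → ∑ j, t j * (v (φ j) : ℝ) ≤ c * d)
    (r : ℝ) (t : Fin J → ℕ) (k : Fin J → ℤ) (hc : ∀ j, IsCoprime (t j : ℤ) (k j))
    (hrk : ∀ j, 0 < t j * r + k j) (hrm : ∀ j, t j * (t j * r + k j) ≤ m j) :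
    ∑ j, (t j * r + k j) / m j * ∑ i ∈ G j, (v i : ℝ) ≤
      (3 * (d : ℝ) - ∑ i ∈ N₁, (v i : ℝ)) + (∑ j, (t j * r + k j) ^ 2 / m j) / (N₁ \ N₂).card *
        (3 * (d : ℝ) - ∑ i ∈ N₂, (v i : ℝ)) := by
  classical
  obtain ⟨s, hsd⟩ : ∃ s : ℕ, s = (N₁ \ N₂).card := ⟨_, rfl⟩
  have hs : 1 ≤ s := by
    by_contra hcon
    have h0 : (N₁ \ N₂).card = 0 := by omega
    rw [card_eq_zero, sdiff_eq_empty_iff_subset] at h0
    exact hne (eq_of_subset_of_card_le h0 (by omega))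
  have hC : (N₁ ∩ N₂).card + s = 9 := by
    have := card_inter_add_card_sdiff N₁ N₂
    omega
  have hs2 : (N₂ \ N₁).card = s := by
    have h1 := card_inter_add_card_sdiff N₂ N₁
    rw [inter_comm] at h1
    omega
  obtain ⟨a, ha⟩ : ∃ a : ℕ, a = (N₁ ∩ N₂).card := ⟨_, rfl⟩
  have eC : Fin a ≃ (N₁ ∩ N₂ : Finset (Fin n)) := (Finset.equivFinOfCardEq ha.symm).symm
  have e1 : Fin s ≃ (N₁ \ N₂ : Finset (Fin n)) := (Finset.equivFinOfCardEq hsd.symm).symm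
  have e2 : Fin s ≃ (N₂ \ N₁ : Finset (Fin n)) := (Finset.equivFinOfCardEq hs2).symm
  have eG : ∀ j, (Fin (m j) ⊕ Fin (m j)) ≃ (G j : Finset (Fin n)) := fun j =>
    Fintype.equivOfCardEq (by
      rw [Fintype.card_sum, Fintype.card_fin, Fintype.card_coe, card j]; ring)
  have hmR : ∀ j, (1 : ℝ) ≤ m j := fun j => by exact_mod_cast pos j
  have hsR : (1 : ℝ) ≤ s := by exact_mod_cast hs
  obtain ⟨y, hyd⟩ : ∃ y : ℝ, y = (∑ j, (t j * r + k j) ^ 2 / m j) / s := ⟨_, rfl⟩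
  have hsum : ∑ j, (t j * r + k j) ^ 2 / m j = s * y := by
    have hs0 : (s : ℝ) ≠ 0 := by positivity
    rw [hyd, mul_comm, div_mul_cancel₀ _ hs0]
  have hy : 0 < y := by
    rw [hyd]
    refine div_pos ?_ (by linarith)
    refine sum_pos (fun j _ => ?_) ⟨⟨0, by omega⟩, mem_univ _⟩
    have h1 := hmR j
    have h2 := hrk j
    positivity
  have h1 := h _ _ _ (nf_arcG (a := a) (s := s) (by omega) hs m t k pos hy hc hrk hrm hsum)
    (Sum.elim (fun i => (eC i : Fin n)) (Sum.elim (fun i => (e1 i : Fin n))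
      (Sum.elim (fun p => (eG p.1 p.2 : Fin n)) (fun i => (e2 i : Fin n))))) (by
      have q0 : ∀ i, (eC i : Fin n) ∈ N₁ ∧ (eC i : Fin n) ∈ N₂ := fun i => mem_inter.1 (eC i).2
      have q1 : ∀ i, (e1 i : Fin n) ∈ N₁ ∧ (e1 i : Fin n) ∉ N₂ := fun i => mem_sdiff.1 (e1 i).2
      have q2 : ∀ i, (e2 i : Fin n) ∈ N₂ ∧ (e2 i : Fin n) ∉ N₁ := fun i => mem_sdiff.1 (e2 i).2
      have q3 : ∀ j i, (eG j i : Fin n) ∉ N₁ ∧ (eG j i : Fin n) ∉ N₂ := fun j i => by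
        have := disjoint_left.1 (disj' j) (eG j i).2
        rw [mem_union] at this
        tauto
      rintro (i | i | ⟨i, i'⟩ | i) (j | j | ⟨j, j'⟩ | j) hij <;>
        simp only [Sum.elim_inl, Sum.elim_inr] at hij
      · rw [eC.injective (Subtype.ext hij)]
      · exact absurd (q0 i).2 (hij ▸ (q1 j).2)
      · exact absurd (q0 i).1 (hij ▸ (q3 j j').1)
      · exact absurd (q0 i).1 (hij ▸ (q2 j).2)
      · exact absurd (q0 j).2 (hij ▸ (q1 i).2)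
      · rw [e1.injective (Subtype.ext hij)]
      · exact absurd (q1 i).1 (hij ▸ (q3 j j').1)
      · exact absurd (q1 i).1 (hij ▸ (q2 j).2)
      · exact absurd (q0 j).1 (hij ▸ (q3 i i').1)
      · exact absurd (q1 j).1 (hij ▸ (q3 i i').1)
      · by_cases hc : i = j
        · subst hc
          rw [(eG i).injective (Subtype.ext hij)]
        · exact absurd (eG j j').2 (hij ▸ disjoint_left.1 (disj i j hc) (eG i i').2)
      · exact absurd (q2 j).1 (hij ▸ (q3 i i').2)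
      · exact absurd (q0 j).1 (hij ▸ (q2 i).2)
      · exact absurd (q1 j).1 (hij ▸ (q2 i).2)
      · exact absurd (q2 i).1 (hij ▸ (q3 j j').2)
      · rw [e2.injective (Subtype.ext hij)])
  simp only [Fintype.sum_sum_type, Sum.elim_inl, Sum.elim_inr, Fintype.sum_sigma] at h1
  have s0 : ∑ i, (v (eC i) : ℝ) = ∑ i ∈ N₁ ∩ N₂, (v i : ℝ) :=
    (eC.sum_comp (fun x : (N₁ ∩ N₂ : Finset (Fin n)) => (v x : ℝ))).trans
      (Finset.sum_coe_sort (N₁ ∩ N₂) (fun i => (v i : ℝ)))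
  have s1 : ∑ i, (v (e1 i) : ℝ) = ∑ i ∈ N₁ \ N₂, (v i : ℝ) :=
    (e1.sum_comp (fun x : (N₁ \ N₂ : Finset (Fin n)) => (v x : ℝ))).trans
      (Finset.sum_coe_sort (N₁ \ N₂) (fun i => (v i : ℝ)))
  have s2 : ∑ i, (v (e2 i) : ℝ) = ∑ i ∈ N₂ \ N₁, (v i : ℝ) :=
    (e2.sum_comp (fun x : (N₂ \ N₁ : Finset (Fin n)) => (v x : ℝ))).trans
      (Finset.sum_coe_sort (N₂ \ N₁) (fun i => (v i : ℝ)))
  have s3 : ∀ j, ∑ i, (v (eG j (Sum.inl i)) : ℝ) + ∑ i, (v (eG j (Sum.inr i)) : ℝ) =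
      ∑ i ∈ G j, (v i : ℝ) := fun j => by
    have h2 := ((eG j).sum_comp (fun x : (G j : Finset (Fin n)) => (v x : ℝ))).trans
      (Finset.sum_coe_sort (G j) (fun i => (v i : ℝ)))
    rw [Fintype.sum_sum_type] at h2
    exact h2
  simp only [← mul_sum, ← mul_add, s3] at h1
  rw [s0, s1, s2] at h1
  have t1 := sum_inter_add_sum_sdiff N₁ N₂ (fun i => (v i : ℝ))
  have t2 := sum_inter_add_sum_sdiff N₂ N₁ (fun i => (v i : ℝ))
  rw [inter_comm] at t2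
  rw [← hsd, ← hyd, ← t1, ← t2]
  linarith

end Pool.Agent.TH102.DP
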